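import Pool.Agent.Lib.MP_3e612f_nt.LO.D.Base

/-!
Functions of the residues of boundedly many `⌊(n + s) / D i⌋`: local orthogonality, uniformly in all data, from
the theorem of Matomaki and Radziwill in residue classes. Adapt `LOD.lbase` (file LO/D/Base): scales
`W 0 < W 1 < …` (naturals), there is `j ≤ R` with no `D i` in `[W j, W (j + 1))`; the modulus of the residue class is
`P = M ^ R * (W j)! ^ ...` or simply `M * (W j)!` (if `D < W j` then `⌊y / D⌋ mod M` is a function of `y mod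
(D M)`, and `D M` divides `M * (W j)!`), and on an interval of length `H` without multiples of `D` for all
`D i ≥ W (j + 1)` the function `⌊y / D i⌋` is constant (at most `H * R * (h / W (j + 1) + 2)` bad starting points,
`LOD.base_count` for every `i`).
-/

set_option autoImplicit false

namespace Pool.Agent.Lib.MP_3e612f_nt.LU

open Finset
open Pool.Agent.Lib.MP_3e612f_nt.LOD
open Pool.Agent.Lib.MP_3e612f_nt.PI (ee mc)

/-- on an interval inside a block of every long `D i` the function of the residues is a function of the residue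
class modulo `Q` -/
private theorem lf_frozen {n M Q H N : ℕ} {D : Fin n → ℕ} (hD : ∀ i, 1 ≤ D i)
    (h1 : ∀ i, D i * M ∣ Q ∨ N % D i + H ≤ D i) {k k' : ℕ} (hk : k < H) (hk' : k' < H)
    (h : (N + k) % Q = (N + k') % Q) (i : Fin n) : (N + k) / D i % M = (N + k') / D i % M := by
  rcases h1 i with h2 | h2
  · have h3 : ∀ x, x / D i % M = x % Q % (D i * M) / D i := by
      intro x
      rw [Nat.mod_mod_of_dvd _ h2, Nat.mod_mul_right_div_self]
    rw [h3, h3 (N + k'), h]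
  · have hE : 0 < D i := hD i
    have h3 : ∀ j, j < H → (N + j) / D i = N / D i := by
      intro j hj
      have h3 := Nat.mod_add_div N (D i)
      have h4 : N + j = (N % D i + j) + D i * (N / D i) := by omega
      rw [h4, Nat.add_mul_div_left _ _ hE, Nat.div_eq_of_lt (by omega), Nat.zero_add]
    rw [h3 k hk, h3 k' hk']

/-- the number of starting points which are bad for some long `D i` -/
private theorem lf_count {n M Q R W H : ℕ} {D : Fin n → ℕ} (hD : ∀ i, 1 ≤ D i) (hn : n ≤ R) (hW : 1 ≤ W)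
    (hQW : ∀ i, D i * M ∣ Q ∨ W ≤ D i) (h s : ℕ) :
    ((range h).filter fun m => ¬ ∀ i, D i * M ∣ Q ∨ (m + s) % D i + H ≤ D i).card ≤
      R * (H * (h / W + 2)) := by
  classical
  have h1 : ((range h).filter fun m => ¬ ∀ i, D i * M ∣ Q ∨ (m + s) % D i + H ≤ D i) ⊆
      (univ : Finset (Fin n)).biUnion fun i =>
        (range h).filter fun m => W ≤ D i ∧ ¬ ((m + s) % D i + H ≤ D i) := by
    intro m hm
    obtain ⟨h2, h3⟩ := mem_filter.1 hm
    rw [not_forall] at h3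
    obtain ⟨i, hi⟩ := h3
    rw [not_or] at hi
    rw [mem_biUnion]
    exact ⟨i, mem_univ _, mem_filter.2 ⟨h2, (hQW i).resolve_left hi.1, hi.2⟩⟩
  refine (card_le_card h1).trans ((card_biUnion_le_card_mul _ _ (H * (h / W + 2)) fun i _ => ?_).trans ?_)
  · by_cases hi : W ≤ D i
    · refine (card_le_card (t := (range h).filter fun m => ¬ ((m + s) % D i + H ≤ D i)) ?_).trans ?_
      · intro m hm
        obtain ⟨h2, h3⟩ := mem_filter.1 hm
        exact mem_filter.2 ⟨h2, h3.2⟩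
      · refine (base_count (hD i) h s H).trans (Nat.mul_le_mul_left _ (Nat.add_le_add_right ?_ _))
        exact Nat.div_le_div_left hi hW
    · have h2 : ((range h).filter fun m => W ≤ D i ∧ ¬ ((m + s) % D i + H ≤ D i)) = ∅ := by
        refine filter_eq_empty_iff.2 fun m _ h3 => hi h3.1
      rw [h2, card_empty]
      exact Nat.zero_le _
  · rw [card_univ, Fintype.card_fin]
    exact Nat.mul_le_mul_right _ hn

/-- one interval, one scale -/
private theorem lf_one {n M Q R W H : ℕ} {D : Fin n → ℕ} (hD : ∀ i, 1 ≤ D i) (hn : n ≤ R) (hW : 1 ≤ W)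
    (hQ : 1 ≤ Q) (hQW : ∀ i, D i * M ∣ Q ∨ W ≤ D i) (hH : 1 ≤ H) (Ψ : (Fin n → ℕ) → ℂ)
    (hΨ : ∀ e, ‖Ψ e‖ ≤ 1) (x s h : ℕ) :
    ‖∑ m ∈ range h, mc (x + m) * Ψ (fun i => (m + s) / D i % M)‖ ≤
      (∑ m ∈ range h, ∑ a ∈ range Q,
        ‖∑ k ∈ (range H).filter (fun k => (x + m + k) % Q = a), mc (x + m + k)‖) / H +
      (R * (H * (h / (W : ℝ) + 2)) + 2 * H) := by
  classical
  have hHr : (0 : ℝ) < H := by exact_mod_cast hH
  set β : ℕ → ℂ := fun y => Ψ (fun i => y / D i % M) with hβ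
  have hb : ∀ y, ‖β y‖ ≤ 1 := fun y => hΨ _
  have hg : ∀ m, ‖mc (x + m) * β (m + s)‖ ≤ 1 := by
    intro m
    rw [norm_mul]
    calc _ ≤ (1 : ℝ) * 1 := mul_le_mul (base_norm_mc _) (hb _) (norm_nonneg _) zero_le_one
      _ = 1 := one_mul _
  refine (base_avg (fun m => mc (x + m) * β (m + s)) hg h hH).trans ?_
  rw [← add_assoc]
  refine add_le_add_left ?_ _
  have h1 : ∀ m, ‖∑ k ∈ range H, mc (x + (m + k)) * β (m + k + s)‖ ≤
      (∑ a ∈ range Q,
        ‖∑ k ∈ (range H).filter (fun k => (x + m + k) % Q = a), mc (x + m + k)‖) +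
      if ¬ (∀ i, D i * M ∣ Q ∨ (m + s) % D i + H ≤ D i) then (H : ℝ) else 0 := by
    intro m
    by_cases hm : ∀ i, D i * M ∣ Q ∨ (m + s) % D i + H ≤ D i
    · rw [if_neg (not_not.2 hm), add_zero]
      have h2 := base_short hQ (x + m) (m + s) H β hb fun k k' hk hk' hkk => by
        rw [hβ]
        exact congrArg Ψ (funext fun i => lf_frozen hD hm hk hk' hkk i)
      refine le_trans (le_of_eq ?_) h2
      congr 1
      refine Finset.sum_congr rfl fun k _ => ?_
      rw [← add_assoc, add_right_comm m k s]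
    · rw [if_pos hm]
      have h2 : ‖∑ k ∈ range H, mc (x + (m + k)) * β (m + k + s)‖ ≤ H := by
        refine (norm_sum_le _ _).trans ((Finset.sum_le_card_nsmul _ _ 1 fun k _ => hg _).trans ?_)
        rw [card_range, nsmul_eq_mul, mul_one]
      have h3 : (0 : ℝ) ≤ ∑ a ∈ range Q,
        ‖∑ k ∈ (range H).filter (fun k => (x + m + k) % Q = a), mc (x + m + k)‖ :=
        Finset.sum_nonneg fun _ _ => norm_nonneg _
      linarith
  have h2 := Finset.sum_le_sum fun m (_ : m ∈ range h) => h1 m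
  rw [Finset.sum_add_distrib, ← Finset.sum_filter, Finset.sum_const, nsmul_eq_mul] at h2
  have h3 := lf_count (H := H) hD hn hW hQW h s
  have h4 : ((((range h).filter fun m => ¬ ∀ i, D i * M ∣ Q ∨ (m + s) % D i + H ≤ D i).card : ℕ) : ℝ) ≤
      R * (H * (h / (W : ℝ) + 2)) := by
    have h5 : (((h / W : ℕ)) : ℝ) ≤ h / (W : ℝ) := Nat.cast_div_le
    calc ((((range h).filter fun m => ¬ ∀ i, D i * M ∣ Q ∨ (m + s) % D i + H ≤ D i).card : ℕ) : ℝ)
        ≤ ((R * (H * (h / W + 2)) : ℕ) : ℝ) := by exact_mod_cast h3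
      _ = R * (H * (((h / W : ℕ) : ℝ) + 2)) := by push_cast; ring
      _ ≤ _ := mul_le_mul_of_nonneg_left (mul_le_mul_of_nonneg_left (by linarith) hHr.le)
          (Nat.cast_nonneg _)
  rw [div_add' _ _ _ hHr.ne', div_le_div_iff_of_pos_right hHr]
  refine h2.trans ?_
  have h5 := mul_le_mul_of_nonneg_right h4 hHr.le
  linarith

theorem lfloor (hMR : MRp) {M : ℕ} (hM : 1 ≤ M) (R : ℕ) {ε : ℝ} (hε : 0 < ε) :
    ∃ h0 : ℕ, ∀ h ≥ h0, ∃ X0 : ℕ, ∀ X ≥ X0, ∀ (s n : ℕ → ℕ), (∀ x, n x ≤ R) →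
      ∀ D : ∀ x : ℕ, Fin (n x) → ℕ, (∀ x i, 1 ≤ D x i) →
      ∀ Ψ : ∀ x : ℕ, (Fin (n x) → ℕ) → ℂ, (∀ x e, ‖Ψ x e‖ ≤ 1) →
        ∑ x ∈ range X, ‖∑ m ∈ range h, mc (x + m) * Ψ x (fun i => (m + s x) / D x i % M)‖ ≤
          ε * h * X := by
  have hMpos : 0 < M := hM
  have hQ : ∀ w : ℕ, 1 ≤ M * w.factorial := fun w => Nat.mul_pos hMpos (Nat.factorial_pos w)
  have hQr : ∀ w : ℕ, (0 : ℝ) < ((M * w.factorial : ℕ) : ℝ) := fun w => by exact_mod_cast hQ w
  have hR0 : (0 : ℝ) < (R : ℝ) + 1 := by positivity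
  have hMR' : ∀ w : ℕ, ∃ H : ℕ, 1 ≤ H ∧ ∃ X0 : ℕ, ∀ X ≥ X0, ∀ a < M * w.factorial,
      ∑ y ∈ range X, ‖∑ k ∈ (range H).filter (fun k => (y + k) % (M * w.factorial) = a), mc (y + k)‖ ≤
        ε / (8 * ((R : ℝ) + 1) * ((M * w.factorial : ℕ) : ℝ)) * H * X := by
    intro w
    have h8 : 0 < ε / (8 * ((R : ℝ) + 1) * ((M * w.factorial : ℕ) : ℝ)) := by
      have := hQr w
      positivity
    obtain ⟨H0, hH0⟩ := hMR (M * w.factorial) (hQ w) _ h8
    obtain ⟨X0, hX0⟩ := hH0 (max 1 H0) (le_max_right _ _)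
    exact ⟨max 1 H0, le_max_left _ _, X0, hX0⟩
  choose Hf hHf1 Xf hXf using hMR'
  -- the scales
  let W : ℕ → ℕ := fun j => Nat.rec 1 (fun _ w => w + 1 + R * (Hf w * ⌈8 / ε⌉₊)) j
  have hWs : ∀ j, W (j + 1) = W j + 1 + R * (Hf (W j) * ⌈8 / ε⌉₊) := fun _ => rfl
  have hmono : Monotone W := monotone_nat_of_le_succ fun j => by
    rw [hWs]
    omega
  have hW1 : ∀ j, 1 ≤ W j := fun j => hmono (Nat.zero_le j)
  have hE : ∀ j, (R : ℝ) * ((Hf (W j) : ℝ) * (8 / ε)) ≤ (W (j + 1) : ℝ) := by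
    intro j
    have h1 : R * (Hf (W j) * ⌈8 / ε⌉₊) ≤ W (j + 1) := by
      rw [hWs]
      omega
    calc (R : ℝ) * ((Hf (W j) : ℝ) * (8 / ε)) ≤ R * (Hf (W j) * (⌈8 / ε⌉₊ : ℝ)) :=
          mul_le_mul_of_nonneg_left (mul_le_mul_of_nonneg_left (Nat.le_ceil _) (Nat.cast_nonneg _))
            (Nat.cast_nonneg _)
      _ = ((R * (Hf (W j) * ⌈8 / ε⌉₊) : ℕ) : ℝ) := by push_cast; ring
      _ ≤ _ := by exact_mod_cast h1
  refine ⟨∑ j ∈ range (R + 1), ⌈16 * (((R : ℝ) + 1) * (Hf (W j) : ℝ)) / ε⌉₊, fun h hh =>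
    ⟨h + ∑ j ∈ range (R + 1), Xf (W j), fun X hX s n hn D hD Ψ hΨ => ?_⟩⟩
  have hh' : ∀ j ∈ range (R + 1), 16 * (((R : ℝ) + 1) * (Hf (W j) : ℝ)) ≤ ε * h := by
    intro j hj
    have h1 : ⌈16 * (((R : ℝ) + 1) * (Hf (W j) : ℝ)) / ε⌉₊ ≤ h :=
      (Finset.single_le_sum (f := fun j => ⌈16 * (((R : ℝ) + 1) * (Hf (W j) : ℝ)) / ε⌉₊)
        (fun _ _ => Nat.zero_le _) hj).trans hh
    have h2 : 16 * (((R : ℝ) + 1) * (Hf (W j) : ℝ)) / ε ≤ h :=
      (Nat.le_ceil _).trans (by exact_mod_cast h1)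
    rw [div_le_iff₀ hε] at h2
    linarith
  have hXh : h ≤ X := by omega
  have hX' : ∀ j ∈ range (R + 1), Xf (W j) ≤ X := by
    intro j hj
    have h1 := Finset.single_le_sum (f := fun j => Xf (W j)) (fun _ _ => Nat.zero_le _) hj
    have h2 : Xf (W j) ≤ ∑ j ∈ range (R + 1), Xf (W j) := h1
    omega
  have hhr : (0 : ℝ) ≤ h := Nat.cast_nonneg h
  set Rf : ℕ → ℕ → ℕ → ℝ := fun j a y =>
    ‖∑ k ∈ (range (Hf (W j))).filter (fun k => (y + k) % (M * (W j).factorial) = a), mc (y + k)‖ with hRf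
  have hRf0 : ∀ j a y, 0 ≤ Rf j a y := fun _ _ _ => norm_nonneg _
  set Gf : ℕ → ℕ → ℝ := fun j x =>
    (∑ m ∈ range h, ∑ a ∈ range (M * (W j).factorial), Rf j a (x + m)) / Hf (W j) with hG
  have hG0 : ∀ j x, 0 ≤ Gf j x := fun j x =>
    div_nonneg (Finset.sum_nonneg fun m _ => Finset.sum_nonneg fun a _ => hRf0 _ _ _)
      (Nat.cast_nonneg _)
  -- one `x`
  have hone : ∀ x, ‖∑ m ∈ range h, mc (x + m) * Ψ x (fun i => (m + s x) / D x i % M)‖ ≤
      ∑ j ∈ range (R + 1), Gf j x + 1 / 4 * (ε * h) := by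
    intro x
    have hI : (univ.image (D x)).card ≤ R := by
      refine card_image_le.trans ?_
      rw [card_univ, Fintype.card_fin]
      exact hn x
    obtain ⟨j, hj, hgap⟩ := base_gap hI W hmono
    have hjr : j ∈ range (R + 1) := mem_range.2 (by omega)
    have hQW : ∀ i, D x i * M ∣ M * (W j).factorial ∨ W (j + 1) ≤ D x i := by
      intro i
      rcases hgap (D x i) (mem_image_of_mem _ (mem_univ i)) with h1 | h1
      · left
        rw [mul_comm]
        exact Nat.mul_dvd_mul_left M (Nat.dvd_factorial (hD x i) h1.le)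
      · exact Or.inr h1
    have h4 := lf_one (hD x) (hn x) (hW1 (j + 1)) (hQ (W j)) hQW (hHf1 (W j)) (Ψ x) (hΨ x) x (s x) h
    have h5 : Gf j x ≤ ∑ j ∈ range (R + 1), Gf j x :=
      Finset.single_le_sum (f := fun j => Gf j x) (fun j _ => hG0 j x) hjr
    have h6 := hh' j hjr
    have hEp : (0 : ℝ) < (W (j + 1) : ℝ) := by exact_mod_cast hW1 (j + 1)
    have h7 : (R : ℝ) * ((Hf (W j) : ℝ) * (h / (W (j + 1) : ℝ))) ≤ ε * h / 8 := by
      have h8 := hE j
      have h9 : (R : ℝ) * (Hf (W j) : ℝ) ≤ ε / 8 * (W (j + 1) : ℝ) := by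
        have h10 := mul_le_mul_of_nonneg_left h8 (show 0 ≤ ε / 8 by positivity)
        have h11 : ε / 8 * ((R : ℝ) * ((Hf (W j) : ℝ) * (8 / ε))) = R * Hf (W j) := by field_simp
        rwa [h11] at h10
      have h12 : (R : ℝ) * ((Hf (W j) : ℝ) * (h / (W (j + 1) : ℝ))) =
          (R : ℝ) * (Hf (W j) : ℝ) * h / (W (j + 1) : ℝ) := by ring
      rw [h12, div_le_iff₀ hEp]
      calc (R : ℝ) * (Hf (W j) : ℝ) * h ≤ ε / 8 * (W (j + 1) : ℝ) * h :=
            mul_le_mul_of_nonneg_right h9 hhr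
        _ = _ := by ring
    refine h4.trans ?_
    show Gf j x + _ ≤ _
    have h12 : (R : ℝ) * ((Hf (W j) : ℝ) * (h / (W (j + 1) : ℝ) + 2)) + 2 * Hf (W j) ≤
        1 / 4 * (ε * h) := by
      have h13 : (R : ℝ) * ((Hf (W j) : ℝ) * (h / (W (j + 1) : ℝ) + 2)) + 2 * Hf (W j) =
          (R : ℝ) * ((Hf (W j) : ℝ) * (h / (W (j + 1) : ℝ))) + 2 * (((R : ℝ) + 1) * Hf (W j)) := by
        ring
      rw [h13]
      linarith
    linarith
  -- the sum over `x`
  have hsumG : ∀ j ∈ range (R + 1), ∑ x ∈ range X, Gf j x ≤ ε * h * X / (4 * ((R : ℝ) + 1)) := by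
    intro j hj
    have hHr : (0 : ℝ) < Hf (W j) := by exact_mod_cast hHf1 (W j)
    have h1 : ∑ x ∈ range X, Gf j x =
        (∑ m ∈ range h, ∑ a ∈ range (M * (W j).factorial), ∑ x ∈ range X, Rf j a (x + m)) /
          Hf (W j) := by
      rw [hG]
      simp only
      rw [← Finset.sum_div, Finset.sum_comm]
      congr 1
      exact Finset.sum_congr rfl fun m _ => Finset.sum_comm
    have h2 : ∀ m ∈ range h, ∀ a ∈ range (M * (W j).factorial), ∑ x ∈ range X, Rf j a (x + m) ≤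
        ε / (8 * ((R : ℝ) + 1) * ((M * (W j).factorial : ℕ) : ℝ)) * Hf (W j) * (2 * X) := by
      intro m hm a ha
      refine (base_shift (Rf j a) (hRf0 j a) (mem_range.1 hm)).trans ?_
      have h3 := hXf (W j) (X + h) ((hX' j hj).trans (Nat.le_add_right _ _)) a (mem_range.1 ha)
      refine h3.trans (mul_le_mul_of_nonneg_left ?_ ?_)
      · have : (h : ℝ) ≤ X := by exact_mod_cast hXh
        push_cast
        linarith
      · have := hQr (W j)
        positivity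
    rw [h1, div_le_iff₀ hHr]
    refine (Finset.sum_le_sum fun m hm => Finset.sum_le_sum fun a ha => h2 m hm a ha).trans ?_
    rw [Finset.sum_const, Finset.sum_const, card_range, card_range, nsmul_eq_mul, nsmul_eq_mul]
    have h4 := hQr (W j)
    refine le_of_eq ?_
    field_simp
    ring
  have hfin : ∑ x ∈ range X, (∑ j ∈ range (R + 1), Gf j x + 1 / 4 * (ε * h)) ≤
      ε * h * X / 4 + 1 / 4 * (ε * h) * X := by
    rw [Finset.sum_add_distrib, Finset.sum_const, card_range, nsmul_eq_mul, Finset.sum_comm]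
    refine add_le_add ?_ (le_of_eq (mul_comm _ _))
    refine (Finset.sum_le_sum hsumG).trans ?_
    rw [Finset.sum_const, card_range, nsmul_eq_mul]
    refine le_of_eq ?_
    push_cast
    field_simp
  refine (Finset.sum_le_sum fun x _ => hone x).trans (hfin.trans ?_)
  have h1 : 0 ≤ ε * h * X := by positivity
  linarith

end Pool.Agent.Lib.MP_3e612f_nt.LU
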