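import Pool.Agent.Lib.MP_3e612f_nt.PB.Dec

/-!
Decomposition with richness `f n`, where `n` is the number of pieces.

PROOF of `dec_growth`. Decompositions are lists of consecutive intervals. Statement `P d`: for every `f` and `m`
there is `R` such that for every monotone family `Nf`, every predicate `Z` on intervals and every decomposition
into at most `m` pieces which are in `Z`, short, or have `card (Nf ..) ≤ d`, there is a decomposition into
`n ≤ R` pieces which are in `Z`, short, or `Rich (f n)`. `P 0` is trivial (`R = m`). `P d → P (d + 1)`: induction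
on the number `t` of pieces which are not in `Z`, not short and have `card = d + 1`. Let `R'` be the bound of
`P d` for `f`, `m` and let `κ` be the maximum of `f` on `[0, R']`. If all these pieces are `Rich κ`: apply `P d`
with these pieces added to `Z`. Otherwise cut one of them by `cut` into at most `2 κ + 1` pieces which are short or
have smaller group, and use the induction hypothesis for `t - 1` and `m + 2 κ + 1`.
-/

set_option autoImplicit false

namespace Pool.Agent.Lib.MP_3e612f_nt.LU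

open Finset
open Pool.Agent.Lib.MP_3e612f_nt.PB

/-- `l` is a list of consecutive intervals from `a` to `b` -/
private def LD_D : List (ℕ × ℕ) → ℕ → ℕ → Prop
  | [], a, b => a = b
  | p :: l, a, b => p.1 = a ∧ p.1 ≤ p.2 ∧ LD_D l p.2 b

private theorem LD_append {l₁ l₂ : List (ℕ × ℕ)} {a b : ℕ} :
    LD_D (l₁ ++ l₂) a b ↔ ∃ x, LD_D l₁ a x ∧ LD_D l₂ x b := by
  induction l₁ generalizing a with
  | nil =>
    constructor
    · intro h
      exact ⟨a, rfl, h⟩
    · rintro ⟨x, h1, h2⟩
      have h3 : a = x := h1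
      subst h3
      exact h2
  | cons p l ih =>
    rw [List.cons_append]
    constructor
    · rintro ⟨h1, h2, h3⟩
      obtain ⟨x, h4, h5⟩ := ih.1 h3
      exact ⟨x, ⟨h1, h2, h4⟩, h5⟩
    · rintro ⟨x, ⟨h1, h2, h3⟩, h4⟩
      exact ⟨h1, h2, ih.2 ⟨x, h3, h4⟩⟩

private theorem LD_le {l : List (ℕ × ℕ)} {a b : ℕ} (h : LD_D l a b) :
    ∀ p ∈ l, p.1 ≤ p.2 := by
  induction l generalizing a with
  | nil => intro p hp; simp at hp
  | cons q l ih =>
    intro p hp
    rcases List.mem_cons.1 hp with rfl | h1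
    · exact h.2.1
    · exact ih h.2.2 p h1

/-- list from a function -/
private theorem LD_of_fun (c : ℕ → ℕ) (hc : Monotone c) (n : ℕ) :
    LD_D ((List.range n).map (fun i => (c i, c (i + 1)))) (c 0) (c n) := by
  induction n with
  | zero => exact rfl
  | succ n ih =>
    rw [List.range_succ, List.map_append]
    exact LD_append.2 ⟨c n, ih, ⟨rfl, hc (Nat.le_succ n), rfl⟩⟩

/-- function from a list -/
private theorem LD_to_fun {l : List (ℕ × ℕ)} {a b : ℕ} (h : LD_D l a b) :
    ∃ c : ℕ → ℕ, c 0 = a ∧ c l.length = b ∧ Monotone c ∧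
      ∀ i < l.length, (c i, c (i + 1)) ∈ l := by
  induction l generalizing a with
  | nil =>
    have h1 : a = b := h
    exact ⟨fun _ => a, rfl, h1, monotone_const, fun i hi => by simp at hi⟩
  | cons p l ih =>
    obtain ⟨h1, h2, h3⟩ := h
    obtain ⟨c, c0, cn, cm, hc⟩ := ih h3
    refine ⟨fun i => Nat.casesOn i a (fun i => c i), rfl, cn, ?_, ?_⟩
    · refine monotone_nat_of_le_succ (fun i => ?_)
      cases i with
      | zero => show a ≤ c 0; omega
      | succ i => show c i ≤ c (i + 1); exact cm (Nat.le_succ i)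
    · intro i hi
      cases i with
      | zero =>
        show (a, c 0) ∈ p :: l
        rw [c0, ← h1]
        exact List.mem_cons_self
      | succ i =>
        show (c i, c (i + 1)) ∈ p :: l
        exact List.mem_cons_of_mem _ (hc i (by simpa using hi))

private theorem LD_rich_mono {L : Type} {Nf : ℕ → ℕ → L} {a b κ κ' : ℕ} (h : Rich Nf a b κ)
    (hk : κ' ≤ κ) : Rich Nf a b κ' := by
  obtain ⟨s, t, h1, h2⟩ := h
  exact ⟨s, t, fun i hi => h1 i (by omega), fun i hi => h2 i (by omega)⟩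

private def LD_P (G : Type) [Group G] [Fintype G] (f : ℕ → ℕ) (d : ℕ) : Prop :=
  ∀ m : ℕ, ∃ R : ℕ, ∀ (Nf : ℕ → ℕ → Subgroup G),
    (∀ a b a' b', a' ≤ a → b ≤ b' → Nf a b ≤ Nf a' b') → ∀ Z : ℕ → ℕ → Prop,
    ∀ (a b : ℕ) (l : List (ℕ × ℕ)), LD_D l a b → l.length ≤ m →
    (∀ p ∈ l, Z p.1 p.2 ∨ p.2 ≤ p.1 + 1 ∨ Nat.card (Nf p.1 p.2) ≤ d) →
    ∃ l' : List (ℕ × ℕ), LD_D l' a b ∧ l'.length ≤ R ∧
      ∀ p ∈ l', Z p.1 p.2 ∨ p.2 ≤ p.1 + 1 ∨ Rich Nf p.1 p.2 (f l'.length)

private theorem LD_zero (G : Type) [Group G] [Fintype G] (f : ℕ → ℕ) : LD_P G f 0 := by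
  intro m
  refine ⟨m, fun Nf _ Z a b l hl hm h => ⟨l, hl, hm, fun p hp => ?_⟩⟩
  rcases h p hp with h1 | h1 | h1
  · exact Or.inl h1
  · exact Or.inr (Or.inl h1)
  · have : 0 < Nat.card (Nf p.1 p.2) := Nat.card_pos
    omega

private theorem LD_succ (G : Type) [Group G] [Fintype G] (f : ℕ → ℕ) (d : ℕ)
    (hP : LD_P G f d) : LD_P G f (d + 1) := by
  classical
  have key : ∀ t m : ℕ, ∃ R : ℕ, ∀ (Nf : ℕ → ℕ → Subgroup G),
      (∀ a b a' b', a' ≤ a → b ≤ b' → Nf a b ≤ Nf a' b') → ∀ Z : ℕ → ℕ → Prop,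
      ∀ (a b : ℕ) (l : List (ℕ × ℕ)), LD_D l a b → l.length ≤ m →
      (∀ p ∈ l, Z p.1 p.2 ∨ p.2 ≤ p.1 + 1 ∨ Nat.card (Nf p.1 p.2) ≤ d + 1) →
      (l.filter (fun p => ¬ (Z p.1 p.2 ∨ p.2 ≤ p.1 + 1 ∨ Nat.card (Nf p.1 p.2) ≤ d))).length ≤ t →
      ∃ l' : List (ℕ × ℕ), LD_D l' a b ∧ l'.length ≤ R ∧
        ∀ p ∈ l', Z p.1 p.2 ∨ p.2 ≤ p.1 + 1 ∨ Rich Nf p.1 p.2 (f l'.length) := by
    intro t
    induction t with
    | zero =>
      intro m
      obtain ⟨R, hR⟩ := hP m
      refine ⟨R, fun Nf hN Z a b l hl hm _ hb => hR Nf hN Z a b l hl hm (fun p hp => ?_)⟩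
      by_contra hcon
      have h1 : l.filter (fun p => ¬ (Z p.1 p.2 ∨ p.2 ≤ p.1 + 1 ∨
          Nat.card (Nf p.1 p.2) ≤ d)) = [] := List.length_eq_zero_iff.1 (Nat.le_zero.1 hb)
      have h2 : p ∈ l.filter (fun p => ¬ (Z p.1 p.2 ∨ p.2 ≤ p.1 + 1 ∨
          Nat.card (Nf p.1 p.2) ≤ d)) := List.mem_filter.2 ⟨hp, by simpa using hcon⟩
      rw [h1] at h2
      simp at h2
    | succ t ih =>
      intro m
      obtain ⟨R', hR'⟩ := hP m
      obtain ⟨κ, hκ⟩ : ∃ κ, ∀ n ≤ R', f n ≤ κ :=
        ⟨(range (R' + 1)).sup f, fun n hn => Finset.le_sup (f := f) (by rw [Finset.mem_range]; omega)⟩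
      obtain ⟨R, hR⟩ := ih (m + (2 * κ + 1))
      refine ⟨max R' R, fun Nf hN Z a b l hl hm hp hb => ?_⟩
      by_cases hall : ∀ p ∈ l, ¬ (Z p.1 p.2 ∨ p.2 ≤ p.1 + 1 ∨ Nat.card (Nf p.1 p.2) ≤ d) →
          Rich Nf p.1 p.2 κ
      · obtain ⟨l', h1, h2, h3⟩ := hR' Nf hN (fun x y => Z x y ∨ Rich Nf x y κ) a b l hl hm
          (fun p hpl => by
            by_cases h4 : Z p.1 p.2 ∨ p.2 ≤ p.1 + 1 ∨ Nat.card (Nf p.1 p.2) ≤ d
            · rcases h4 with h4 | h4 | h4
              · exact Or.inl (Or.inl h4)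
              · exact Or.inr (Or.inl h4)
              · exact Or.inr (Or.inr h4)
            · exact Or.inl (Or.inr (hall p hpl h4)))
        refine ⟨l', h1, h2.trans (le_max_left _ _), fun p hpl => ?_⟩
        rcases h3 p hpl with (h4 | h4) | h4 | h4
        · exact Or.inl h4
        · exact Or.inr (Or.inr (LD_rich_mono h4 (hκ _ h2)))
        · exact Or.inr (Or.inl h4)
        · exact Or.inr (Or.inr h4)
      · push Not at hall
        obtain ⟨p, hpl, ⟨hz, hs, hc⟩, hr⟩ := hall
        obtain ⟨l₁, l₂, rfl⟩ := List.append_of_mem hpl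
        obtain ⟨x, hx1, hx2, hx3, hx4⟩ := LD_append.1 hl
        obtain ⟨n, hn, c, c0, cn, cm, hcc⟩ := cut Nf hN p.1 p.2 κ hx3 hr
        have hcard : Nat.card (Nf p.1 p.2) ≤ d + 1 := by
          rcases hp p hpl with h1 | h1 | h1
          · exact absurd h1 hz
          · omega
          · exact h1
        obtain ⟨q, hq⟩ : ∃ q : List (ℕ × ℕ), q = (List.range n).map (fun i => (c i, c (i + 1))) :=
          ⟨_, rfl⟩
        have hqD : LD_D q p.1 p.2 := by
          have := LD_of_fun c cm n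
          rw [c0, cn] at this
          rw [hq]
          exact this
        have hql : q.length = n := by rw [hq]; simp
        have hqs : ∀ r ∈ q, r.2 ≤ r.1 + 1 ∨ Nat.card (Nf r.1 r.2) ≤ d := by
          intro r hr'
          rw [hq] at hr'
          obtain ⟨i, hi, rfl⟩ := List.mem_map.1 hr'
          rcases hcc i (by simpa using hi) with h1 | h1
          · exact Or.inl h1
          · exact Or.inr (by show Nat.card (Nf (c i) (c (i + 1))) ≤ d; omega)
        have hD : LD_D (l₁ ++ (q ++ l₂)) a b :=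
          LD_append.2 ⟨x, hx1, LD_append.2 ⟨p.2, by rw [← hx2]; exact hqD, hx4⟩⟩
        have hlen : (l₁ ++ (q ++ l₂)).length ≤ m + (2 * κ + 1) := by
          simp only [List.length_append, List.length_cons] at hm ⊢
          omega
        have hfq : q.filter (fun p => ¬ (Z p.1 p.2 ∨ p.2 ≤ p.1 + 1 ∨
            Nat.card (Nf p.1 p.2) ≤ d)) = [] := by
          rw [List.filter_eq_nil_iff]
          intro r hr'
          simp only [decide_not, Bool.not_eq_true', decide_eq_false_iff_not, not_not]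
          exact Or.inr (hqs r hr')
        have hfp : (p :: l₂).filter (fun p => ¬ (Z p.1 p.2 ∨ p.2 ≤ p.1 + 1 ∨
            Nat.card (Nf p.1 p.2) ≤ d)) = p :: l₂.filter (fun p => ¬ (Z p.1 p.2 ∨ p.2 ≤ p.1 + 1 ∨
            Nat.card (Nf p.1 p.2) ≤ d)) := by
          apply List.filter_cons_of_pos
          simp only [decide_eq_true_eq, not_or]
          exact ⟨hz, by omega, by omega⟩
        obtain ⟨l', h1, h2, h3⟩ := hR Nf hN Z a b (l₁ ++ (q ++ l₂)) hD hlen
          (fun r hr' => by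
            rcases List.mem_append.1 hr' with h1 | h1
            · exact hp r (List.mem_append.2 (Or.inl h1))
            rcases List.mem_append.1 h1 with h2 | h2
            · rcases hqs r h2 with h3 | h3
              · exact Or.inr (Or.inl h3)
              · exact Or.inr (Or.inr (by omega))
            · exact hp r (List.mem_append.2 (Or.inr (List.mem_cons_of_mem _ h2))))
          (by
            rw [List.filter_append, List.filter_append, hfq]
            rw [List.filter_append, hfp] at hb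
            simp only [List.length_append, List.length_cons, List.length_nil] at hb ⊢
            omega)
        exact ⟨l', h1, h2.trans (le_max_right _ _), h3⟩
  intro m
  obtain ⟨R, hR⟩ := key m m
  exact ⟨R, fun Nf hN Z a b l hl hm h => hR Nf hN Z a b l hl hm h
    ((List.length_filter_le _ _).trans hm)⟩

/-- decomposition into `n ≤ R` pieces which are short or rich with `f n` full subintervals -/
theorem dec_growth (G : Type) [Group G] [Fintype G] (f : ℕ → ℕ) :
    ∃ R : ℕ, ∀ (Nf : ℕ → ℕ → Subgroup G),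
      (∀ a b a' b', a' ≤ a → b ≤ b' → Nf a b ≤ Nf a' b') → ∀ K : ℕ,
      ∃ n ≤ R, ∃ c : ℕ → ℕ, c 0 = 0 ∧ c n = K ∧ Monotone c ∧
        ∃ S : Finset ℕ, S ⊆ range n ∧
          (∀ i < n, i ∉ S → c (i + 1) ≤ c i + 1) ∧
          (∀ i ∈ S, Rich Nf (c i) (c (i + 1)) (f n)) := by
  classical
  have hall : ∀ d, LD_P G f d := by
    intro d
    induction d with
    | zero => exact LD_zero G f
    | succ d ih => exact LD_succ G f d ih
  obtain ⟨R, hR⟩ := hall (Nat.card G) 1
  refine ⟨R, fun Nf hN K => ?_⟩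
  obtain ⟨l', h1, h2, h3⟩ := hR Nf hN (fun _ _ => False) 0 K [(0, K)]
    ⟨rfl, Nat.zero_le K, rfl⟩ (by simp)
    (fun p _ => Or.inr (Or.inr (Subgroup.card_le_card_group _)))
  obtain ⟨c, c0, cn, cm, hc⟩ := LD_to_fun h1
  refine ⟨l'.length, h2, c, c0, cn, cm,
    (range l'.length).filter (fun i => ¬ c (i + 1) ≤ c i + 1), Finset.filter_subset _ _, ?_, ?_⟩
  · intro i hi hi'
    by_contra hcon
    exact hi' (Finset.mem_filter.2 ⟨Finset.mem_range.2 hi, hcon⟩)
  · intro i hi
    obtain ⟨hi1, hi2⟩ := Finset.mem_filter.1 hi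
    rcases h3 _ (hc i (Finset.mem_range.1 hi1)) with h4 | h4 | h4
    · exact absurd h4 (fun h => h)
    · exact absurd h4 hi2
    · exact h4

end Pool.Agent.Lib.MP_3e612f_nt.LU
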