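import Pool.Agent.Lib.MP_3e612f_nt.PB.Lin

/-!
Two digit maps with values in `G` as one digit map with values in `G × G`.
-/

set_option autoImplicit false

namespace Pool.Agent.Lib.MP_3e612f_nt.LU

open Finset
open Pool.Agent.Lib.MP_3e612f_nt.PB

variable {G : Type} [Group G] {q : ℕ → ℕ}

/-- the pair of two digit maps -/
def gg (g₁ g₂ : ℕ → ℕ → G) : ℕ → ℕ → G × G := fun j d => (g₁ j d, g₂ j d)

theorem hw_gg (q : ℕ → ℕ) (g₁ g₂ : ℕ → ℕ → G) (j m n : ℕ) :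
    hw q (gg g₁ g₂) j m n = (hw q g₁ j m n, hw q g₂ j m n) := by
  induction m generalizing j n with
  | zero => rfl
  | succ m ih =>
    show gg g₁ g₂ j (n % q j) * hw q (gg g₁ g₂) (j + 1) m (n / q j) = _
    rw [ih]
    rfl

theorem Neu_gg {g₁ g₂ : ℕ → ℕ → G} (h₁ : Neu g₁) (h₂ : Neu g₂) : Neu (gg g₁ g₂) := by
  intro j
  show (g₁ j 0, g₂ j 0) = 1
  rw [h₁ j, h₂ j]
  rfl

theorem Gam_gg (q : ℕ → ℕ) (g₁ g₂ : ℕ → ℕ → G) (a b : ℕ) :
    (Gam q (gg g₁ g₂) a b).map (MonoidHom.snd G G) = Gam q g₂ a b := by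
  unfold Gam
  rw [MonoidHom.map_closure]
  congr 1
  ext x
  constructor
  · rintro ⟨y, ⟨j, d, h1, h2, h3, rfl⟩, rfl⟩
    exact ⟨j, d, h1, h2, h3, rfl⟩
  · rintro ⟨j, d, h1, h2, h3, rfl⟩
    exact ⟨gg g₁ g₂ j d, ⟨j, d, h1, h2, h3, rfl⟩, rfl⟩

theorem Xs_gg_snd {g₁ g₂ : ℕ → ℕ → G} {a b : ℕ} {y : G × G} (hy : y ∈ Xs q (gg g₁ g₂) a b) :
    y.2 ∈ Xs q g₂ a b := by
  rcases hy with ⟨j, d, h1, h2, h3, rfl⟩ | ⟨j, h1, h2, rfl⟩
  · exact Or.inl ⟨j, d, h1, h2, h3, rfl⟩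
  · exact Or.inr ⟨j, h1, h2, rfl⟩

theorem Xs_gg_lift {g₁ g₂ : ℕ → ℕ → G} {a b : ℕ} {y : G} (hy : y ∈ Xs q g₂ a b) :
    ∃ z ∈ Xs q (gg g₁ g₂) a b, z.2 = y := by
  rcases hy with ⟨j, d, h1, h2, h3, rfl⟩ | ⟨j, h1, h2, rfl⟩
  · exact ⟨_, Or.inl ⟨j, d, h1, h2, h3, rfl⟩, rfl⟩
  · exact ⟨_, Or.inr ⟨j, h1, h2, rfl⟩, rfl⟩

/-- the second projection of the non-linearity group of the pair -/
theorem Nlin_gg (q : ℕ → ℕ) (g₁ g₂ : ℕ → ℕ → G) (a b : ℕ) :
    (Nlin q (gg g₁ g₂) a b).map (MonoidHom.snd G G) = Nlin q g₂ a b := by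
  unfold Nlin
  rw [MonoidHom.map_closure]
  congr 1
  ext x
  constructor
  · rintro ⟨y, ⟨γ, hγ, z, hz, rfl⟩, rfl⟩
    refine ⟨γ.2, ?_, z.2, Xs_gg_snd hz, rfl⟩
    rw [← Gam_gg q g₁ g₂ a b]
    exact ⟨γ, hγ, rfl⟩
  · rintro ⟨γ, hγ, z, hz, rfl⟩
    rw [← Gam_gg q g₁ g₂ a b] at hγ
    obtain ⟨γ', hγ', rfl⟩ := hγ
    obtain ⟨z', hz', rfl⟩ := Xs_gg_lift (g₁ := g₁) hz
    exact ⟨γ' * z' * γ'⁻¹, ⟨γ', hγ', z', hz', rfl⟩, rfl⟩

open Classical in
/-- a function of the second coordinate which is balanced with respect to the projection -/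
theorem bal_snd [Fintype G] {N' : Subgroup (G × G)} {N : Subgroup G}
    (h : N'.map (MonoidHom.snd G G) = N) (ψ : G → ℝ)
    (hψ : ∑ ν : G, (if ν ∈ N then ψ ν else 0) = 0) :
    ∑ ν : G × G, (if ν ∈ N' then ψ ν.2 else 0) = 0 := by
  -- translate: for every `y ∈ N` the fibre sums are equal
  have hfib : ∀ y : G, (∑ x : G, (if (x, y) ∈ N' then ψ y else 0)) =
      ((Finset.univ.filter fun x : G => (x, (1 : G)) ∈ N').card : ℝ) *
        (if y ∈ N then ψ y else 0) := by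
    intro y
    by_cases hy : y ∈ N
    · rw [if_pos hy]
      rw [← h] at hy
      obtain ⟨z, hz, hzy⟩ := hy
      have hzy' : z.2 = y := hzy
      rw [← Finset.sum_filter, Finset.sum_const, nsmul_eq_mul]
      congr 2
      refine Finset.card_bij (fun x _ => x * z.1⁻¹) ?_ ?_ ?_
      · intro x hx
        rw [Finset.mem_filter] at hx ⊢
        refine ⟨Finset.mem_univ _, ?_⟩
        have h1 := N'.mul_mem hx.2 (N'.inv_mem hz)
        have e : (x, y) * z⁻¹ = (x * z.1⁻¹, (1 : G)) := by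
          apply Prod.ext
          · rfl
          · show y * z.2⁻¹ = 1
            rw [hzy', mul_inv_cancel]
        rwa [e] at h1
      · intro x _ x' _ hxx
        exact mul_right_cancel hxx
      · intro x hx
        rw [Finset.mem_filter] at hx
        refine ⟨x * z.1, ?_, by group⟩
        rw [Finset.mem_filter]
        refine ⟨Finset.mem_univ _, ?_⟩
        have h1 := N'.mul_mem hx.2 hz
        have e : (x, (1 : G)) * z = (x * z.1, y) := by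
          apply Prod.ext
          · rfl
          · show 1 * z.2 = y
            rw [hzy', one_mul]
        rwa [e] at h1
    · rw [if_neg hy, mul_zero]
      refine Finset.sum_eq_zero fun x _ => ?_
      rw [if_neg]
      intro hx
      exact hy (h ▸ ⟨(x, y), hx, rfl⟩)
  rw [Fintype.sum_prod_type_right]
  rw [Finset.sum_congr rfl fun y _ => hfib y, ← Finset.mul_sum, hψ, mul_zero]

end Pool.Agent.Lib.MP_3e612f_nt.LU
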