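import Pool.Agent.Lib.MP_3e612f_nt.PB.Dec

/-!
A rich interval of one family contains, between two consecutive cut points, a subinterval which is full for this
family and rich for a second family.

PROOF of `rich_two`. Let `(s i, t i)`, `i < (n + 2) M ^ e`, `e = card G'`, be the full subintervals. The
`n + 2` hulls of blocks of `M ^ e` consecutive ones are disjoint, so one of them contains none of the `n - 1`
interior cut points `c 1, …, c (n - 1)` in its interior, i.e. it is inside some `[c i, c (i + 1)]`. Claim: a block of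
`M ^ e` consecutive ones with `card (Nf' (hull)) ≤ e` contains a block of `M ^ e'`, `1 ≤ e' ≤ e`, whose `M`
subblocks of length `M ^ (e' - 1)` all have the same group as the block (induction on `e`: if one of the `M`
subblocks of length `M ^ (e - 1)` has a smaller group then its card is at most `e - 1`).
-/

set_option autoImplicit false

namespace Pool.Agent.Lib.MP_3e612f_nt.LU

open Finset
open Pool.Agent.Lib.MP_3e612f_nt.PB

private theorem Ram_card {G : Type} [Group G] [Fintype G] {H K : Subgroup G} (h : H ≤ K)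
    (hne : H ≠ K) : Nat.card H < Nat.card K := by
  by_contra hcon
  exact hne (Subgroup.eq_of_le_of_card_ge h (not_lt.1 hcon))

/-- order of the end points -/
private theorem Ram_lt {s t : ℕ → ℕ} {κ : ℕ} (h1 : ∀ i, i < κ → s i < t i)
    (h2 : ∀ i, i + 1 < κ → t i ≤ s (i + 1)) (i d : ℕ) (h : i + 1 + d < κ) :
    t i ≤ s (i + 1 + d) := by
  induction d with
  | zero => exact h2 i h
  | succ d ih =>
    have e1 := ih (by omega)
    have e2 := h1 (i + 1 + d) (by omega)
    have e3 := h2 (i + 1 + d) (by omega)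
    have e4 : i + 1 + (d + 1) = i + 1 + d + 1 := by omega
    rw [e4]
    omega

private theorem Ram_lt' {s t : ℕ → ℕ} {κ : ℕ} (h1 : ∀ i, i < κ → s i < t i)
    (h2 : ∀ i, i + 1 < κ → t i ≤ s (i + 1)) {i j : ℕ} (hij : i < j) (h : j < κ) :
    t i ≤ s j := by
  obtain ⟨d, rfl⟩ := Nat.exists_eq_add_of_lt hij
  have e : i + d + 1 = i + 1 + d := by omega
  rw [e] at h ⊢
  exact Ram_lt h1 h2 i d h

private theorem Ram_t {s t : ℕ → ℕ} {κ : ℕ} (h1 : ∀ i, i < κ → s i < t i)
    (h2 : ∀ i, i + 1 < κ → t i ≤ s (i + 1)) {i j : ℕ} (hij : i ≤ j) (h : j < κ) :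
    t i ≤ t j := by
  rcases Nat.eq_or_lt_of_le hij with rfl | hlt
  · exact le_rfl
  · exact (Ram_lt' h1 h2 hlt h).trans (h1 j h).le

private theorem Ram_s {s t : ℕ → ℕ} {κ : ℕ} (h1 : ∀ i, i < κ → s i < t i)
    (h2 : ∀ i, i + 1 < κ → t i ≤ s (i + 1)) {i j : ℕ} (hij : i ≤ j) (h : j < κ) :
    s i ≤ s j := by
  rcases Nat.eq_or_lt_of_le hij with rfl | hlt
  · exact le_rfl
  · exact (h1 i (by omega)).le.trans (Ram_lt' h1 h2 hlt h)

/-- chains of subgroups -/
private theorem Ram_chain {G' : Type} [Group G'] [Fintype G'] {Nf' : ℕ → ℕ → Subgroup G'}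
    (hN' : ∀ a b a' b', a' ≤ a → b ≤ b' → Nf' a b ≤ Nf' a' b') {M κ : ℕ} (hM : 1 ≤ M)
    {s t : ℕ → ℕ} (h1 : ∀ i, i < κ → s i < t i) (h2 : ∀ i, i + 1 < κ → t i ≤ s (i + 1)) :
    ∀ (e B : ℕ), B + M ^ e ≤ κ → Nat.card (Nf' (s B) (t (B + M ^ e - 1))) ≤ e →
      ∃ B' B'' : ℕ, B ≤ B' ∧ B' ≤ B'' ∧ B'' ≤ B + M ^ e - 1 ∧ Rich Nf' (s B') (t B'') M := by
  intro e
  induction e with
  | zero =>
    intro B _ hcard
    have : 0 < Nat.card (Nf' (s B) (t (B + M ^ 0 - 1))) := Nat.card_pos
    omega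
  | succ e ih =>
    intro B hB hcard
    have hpos : 1 ≤ M ^ e := Nat.one_le_pow _ _ hM
    have hpow : M ^ (e + 1) = M * M ^ e := by rw [pow_succ, Nat.mul_comm]
    set P := M ^ e with hP
    have hsub : ∀ j, j < M → j * P + P ≤ M * P := by
      intro j hj
      calc j * P + P = (j + 1) * P := by ring
        _ ≤ M * P := Nat.mul_le_mul_right _ hj
    by_cases hall : ∀ j, j < M → Nf' (s (B + j * P)) (t (B + j * P + P - 1)) =
        Nf' (s B) (t (B + M * P - 1))
    · refine ⟨B, B + M * P - 1, le_rfl, ?_, ?_, fun j => s (B + j * P),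
        fun j => t (B + j * P + P - 1), ?_, ?_⟩
      · have := hsub 0 (by omega)
        omega
      · rw [hpow]
      · intro j hj
        have h3 := hsub j hj
        refine ⟨Ram_s h1 h2 (by omega) (by omega), ?_, Ram_t h1 h2 (by omega) (by omega),
          hall j hj⟩
        exact lt_of_lt_of_le (h1 _ (by omega)) (Ram_t h1 h2 (by omega) (by omega))
      · intro j hj
        have h3 := hsub (j + 1) hj
        have h4 : (j + 1) * P = j * P + P := by ring
        refine Ram_lt' h1 h2 ?_ ?_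
        · omega
        · omega
    · push Not at hall
      obtain ⟨j, hj, hne⟩ := hall
      have h3 := hsub j hj
      have hle : Nf' (s (B + j * P)) (t (B + j * P + P - 1)) ≤ Nf' (s B) (t (B + M * P - 1)) :=
        hN' _ _ _ _ (Ram_s h1 h2 (by omega) (by omega)) (Ram_t h1 h2 (by omega) (by omega))
      have hlt := Ram_card hle hne
      rw [hpow] at hcard hB
      obtain ⟨B', B'', g1, g2, g3, g4⟩ := ih (B + j * P) (by omega) (by omega)
      exact ⟨B', B'', by omega, g2, by rw [hpow]; omega, g4⟩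

theorem rich_two {G G' : Type} [Group G] [Group G'] [Fintype G'] {Nf : ℕ → ℕ → Subgroup G}
    {Nf' : ℕ → ℕ → Subgroup G'} (hN : ∀ a b a' b', a' ≤ a → b ≤ b' → Nf a b ≤ Nf a' b')
    (hN' : ∀ a b a' b', a' ≤ a → b ≤ b' → Nf' a b ≤ Nf' a' b') {a b M n : ℕ} (hM : 1 ≤ M)
    (h : Rich Nf a b ((n + 2) * M ^ Fintype.card G')) {c : ℕ → ℕ} (hc : Monotone c)
    (h0 : c 0 ≤ a) (hn : b ≤ c n) :
    ∃ i < n, ∃ a' b' : ℕ, a ≤ a' ∧ a' ≤ b' ∧ b' ≤ b ∧ c i ≤ a' ∧ b' ≤ c (i + 1) ∧
      Nf a' b' = Nf a b ∧ Rich Nf' a' b' M := by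
  obtain ⟨s, t, hst, hord⟩ := h
  set K := M ^ Fintype.card G' with hK
  have hKpos : 1 ≤ K := Nat.one_le_pow _ _ hM
  set κ := (n + 2) * K with hκ
  have h1 : ∀ i, i < κ → s i < t i := fun i hi => (hst i hi).2.1
  have hblk : ∀ r, r ≤ n → r * K + K < κ := by
    intro r hr
    have e1 : (r + 2) * K ≤ κ := Nat.mul_le_mul_right _ (by omega)
    have e2 : (r + 2) * K = r * K + K + K := by ring
    omega
  have key : ∃ r < n, c r ≤ s (r * K) ∧ t (r * K + K - 1) ≤ c (r + 1) := by
    by_contra hcon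
    push Not at hcon
    have hind : ∀ r, r ≤ n → c r ≤ s (r * K) := by
      intro r
      induction r with
      | zero =>
        intro _
        have := (hst (0 * K) (by have := hblk 0 (by omega); omega)).1
        exact h0.trans this
      | succ r ih =>
        intro hr
        have e1 := ih (by omega)
        have e2 := hcon r (by omega) e1
        have e3 := hblk r (by omega)
        have e4 : (r + 1) * K = r * K + K := by ring
        have e5 : t (r * K + K - 1) ≤ s (r * K + K) := Ram_lt' h1 hord (by omega) e3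
        rw [e4]
        omega
    have e1 := hind n le_rfl
    have e2 := hblk n le_rfl
    have e3 := hst (n * K) (by omega)
    omega
  obtain ⟨r, hr, hr1, hr2⟩ := key
  have hrb := hblk r hr.le
  have hcard : Nat.card (Nf' (s (r * K)) (t (r * K + M ^ Fintype.card G' - 1))) ≤
      Fintype.card G' := by
    rw [← Nat.card_eq_fintype_card]
    exact Subgroup.card_le_card_group _
  obtain ⟨B', B'', g1, g2, g3, g4⟩ := Ram_chain hN' hM h1 hord (Fintype.card G') (r * K)
    (by rw [← hK]; omega) hcard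
  rw [← hK] at g3
  have hB' := hst B' (by omega)
  have hB'' := hst B'' (by omega)
  have hs : s (r * K) ≤ s B' := Ram_s h1 hord g1 (by omega)
  have ht : t B'' ≤ t (r * K + K - 1) := Ram_t h1 hord g3 (by omega)
  have htt : t B' ≤ t B'' := Ram_t h1 hord g2 (by omega)
  refine ⟨r, hr, s B', t B'', hB'.1, by omega, hB''.2.2.1, by omega, by omega, ?_, g4⟩
  refine le_antisymm (hN _ _ _ _ hB'.1 hB''.2.2.1) ?_
  calc Nf a b = Nf (s B') (t B') := hB'.2.2.2.symm
    _ ≤ Nf (s B') (t B'') := hN _ _ _ _ le_rfl htt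

end Pool.Agent.Lib.MP_3e612f_nt.LU
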