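import Pool.Agent.Lib.MP_3e612f_nt.PB.Piece
import Pool.Agent.Lib.MP_3e612f_nt.PB.Lin

/-!
A function of the pieces as a function of the low part, the product over a subinterval of a piece, and the high
part. Adapt `PB.exists_rep` (file PB/PieceA): with `om l γ u j := if j < i then zz q g c j l else if j = i then
hw q g (c i) (a' - c i) (l / Qr q 0 (c i)) * γ * hw q g b' (c (i + 1) - b') u else
hw q g (c j) (c (j + 1) - c j) (u / Qr q b' (c j - b'))`. For the last clause move the upper factor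
`η = hw q g b' (c (i + 1) - b') u ∈ Gam q g (c i) (c (i + 1))` through `ν` (`Nlin_conj`), and reindex the sum.
-/

set_option autoImplicit false

namespace Pool.Agent.Lib.MP_3e612f_nt.LU

open Finset
open Pool.Agent.Lib.MP_3e612f_nt.PB

variable {G : Type} [Group G] {q : ℕ → ℕ} {g : ℕ → ℕ → G} {B : ℕ}

private theorem rep_Qr (q : ℕ → ℕ) {a b : ℕ} (h : a ≤ b) :
    Qr q 0 b = Qr q 0 a * Qr q a (b - a) := by
  have h3 := Qr_add q 0 a (b - a)
  rw [zero_add] at h3
  rw [← h3]
  congr 1
  omega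

/-- a lower segment only depends on the low part -/
private theorem rep_low (hq : Rad B q) {a a' m : ℕ} (h : a + m ≤ a') (x : ℕ) :
    hw q g a m (x % Qr q 0 a' / Qr q 0 a) = hw q g a m (x / Qr q 0 a) := by
  rw [rep_Qr q (show a ≤ a' by omega), Nat.mod_mul_right_div_self,
    PieceA_hw_mod_big hq a (by omega)]

/-- the middle piece is the product of three segments -/
private theorem rep_mid (q : ℕ → ℕ) (g : ℕ → ℕ → G) {c0 a' b' c1 : ℕ} (ha : c0 ≤ a')
    (hab : a' ≤ b') (hb : b' ≤ c1) (x : ℕ) :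
    hw q g c0 (c1 - c0) (x / Qr q 0 c0) =
      hw q g c0 (a' - c0) (x / Qr q 0 c0) * hw q g a' (b' - a') (x / Qr q 0 a') *
        hw q g b' (c1 - b') (x / Qr q 0 b') := by
  have e1 : c1 - c0 = (a' - c0) + ((b' - a') + (c1 - b')) := by omega
  rw [e1, hw_add, hw_add, Nat.div_div_eq_div_mul, Nat.div_div_eq_div_mul]
  have e2 : c0 + (a' - c0) = a' := by omega
  have e3 : a' + (b' - a') = b' := by omega
  rw [e2, e3, ← rep_Qr q ha, ← rep_Qr q hab, mul_assoc]

open Classical in
theorem rep_sub [Fintype G] (hq : Rad B q) {c : ℕ → ℕ} (hc0 : c 0 = 0) (hc : Monotone c)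
    {n : ℕ} (i : Fin n) {a' b' : ℕ} (ha : c i ≤ a') (hab : a' ≤ b') (hb : b' ≤ c (i + 1))
    (V : (Fin n → G) → ℝ) :
    ∃ Φ : ℕ → G → ℕ → ℝ,
      (∀ x, V (fun j => zz q g c j x) =
        Φ (x % Qr q 0 a') (hw q g a' (b' - a') (x / Qr q 0 a')) (x / Qr q 0 b')) ∧
      (∀ C : ℝ, (∀ ω, |V ω| ≤ C) → ∀ l γ u, |Φ l γ u| ≤ C) ∧
      (BalAt i (Nlin q g (c i) (c (i + 1))) V → ∀ l γ u,
        ∑ ν : G, (if ν ∈ Nlin q g (c i) (c (i + 1)) then Φ l (γ * ν) u else 0) = 0) := by
  let om : ℕ → G → ℕ → (Fin n → G) := fun l γ u j =>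
    if j < i then zz q g c j l else if j = i then
      hw q g (c i) (a' - c i) (l / Qr q 0 (c i)) * γ * hw q g b' (c (i + 1) - b') u else
      hw q g (c j) (c (j + 1) - c j) (u / Qr q b' (c j - b'))
  refine ⟨fun l γ u => V (om l γ u), fun x => ?_, fun C hC l γ u => hC _, fun hN l γ u => ?_⟩
  · have h : (fun j : Fin n => zz q g c j x) = om (x % Qr q 0 a')
        (hw q g a' (b' - a') (x / Qr q 0 a')) (x / Qr q 0 b') := by
      funext j
      change zz q g c j x = if j < i then zz q g c j (x % Qr q 0 a') else if j = i then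
        hw q g (c i) (a' - c i) (x % Qr q 0 a' / Qr q 0 (c i)) *
          hw q g a' (b' - a') (x / Qr q 0 a') * hw q g b' (c (i + 1) - b') (x / Qr q 0 b') else
        hw q g (c j) (c (j + 1) - c j) (x / Qr q 0 b' / Qr q b' (c j - b'))
      split_ifs with h1 h2
      · have h3 : c (j + 1) ≤ c i := hc (Fin.lt_def.mp h1)
        have h4 : c j ≤ c (j + 1) := hc (Nat.le_succ j)
        unfold zz
        rw [rep_low hq (by omega)]
      · rw [h2, rep_low hq (by omega)]
        unfold zz
        exact rep_mid q g ha hab hb x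
      · have h3 : (i : ℕ) < (j : ℕ) := by
          have h4 : (j : ℕ) ≠ (i : ℕ) := fun h => h2 (Fin.ext h)
          have h5 : ¬ (j : ℕ) < (i : ℕ) := fun h => h1 (Fin.lt_def.mpr h)
          omega
        have h6 : c (i + 1) ≤ c j := hc h3
        unfold zz
        rw [Nat.div_div_eq_div_mul, ← rep_Qr q (hb.trans h6)]
    change V (fun j => zz q g c j x) = V _
    rw [h]
  · obtain ⟨η, hη⟩ : ∃ η : G, η = hw q g b' (c (i + 1) - b') u := ⟨_, rfl⟩
    obtain ⟨α, hα⟩ : ∃ α : G, α = hw q g (c i) (a' - c i) (l / Qr q 0 (c i)) := ⟨_, rfl⟩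
    have hηG : η ∈ Gam q g (c i) (c (i + 1)) := by
      rw [hη]
      exact hw_mem_Gam hq (ha.trans hab) (by omega) u
    have h := hN (om l γ u)
    have h1 : ∀ γ' : G, om l γ' u i = α * γ' * η := by
      intro γ'
      change (if i < i then zz q g c i l else if i = i then
        hw q g (c i) (a' - c i) (l / Qr q 0 (c i)) * γ' * hw q g b' (c (i + 1) - b') u else
        hw q g (c i) (c (i + 1) - c i) (u / Qr q b' (c i - b'))) = α * γ' * η
      rw [if_neg (lt_irrefl i), if_pos rfl, hα, hη]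
    have h2 : ∀ ν : G, om l (γ * ν) u =
        Function.update (om l γ u) i (om l γ u i * (η⁻¹ * ν * η)) := by
      intro ν
      funext j
      rcases eq_or_ne j i with rfl | hji
      · rw [Function.update_self, h1, h1]
        group
      · rw [Function.update_of_ne hji]
        change (if j < i then zz q g c j l else if j = i then
          hw q g (c i) (a' - c i) (l / Qr q 0 (c i)) * (γ * ν) *
            hw q g b' (c (i + 1) - b') u else
          hw q g (c j) (c (j + 1) - c j) (u / Qr q b' (c j - b'))) =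
          (if j < i then zz q g c j l else if j = i then
          hw q g (c i) (a' - c i) (l / Qr q 0 (c i)) * γ * hw q g b' (c (i + 1) - b') u else
          hw q g (c j) (c (j + 1) - c j) (u / Qr q b' (c j - b')))
        rw [if_neg hji, if_neg hji]
    have h3 : ∀ ν : G, (ν ∈ Nlin q g (c i) (c (i + 1))) ↔
        (η⁻¹ * ν * η ∈ Nlin q g (c i) (c (i + 1))) := by
      intro ν
      have h4 := Nlin_conj (inv_mem hηG) ν
      rw [inv_inv] at h4
      exact h4
    rw [← Equiv.sum_comp (MulAut.conj η⁻¹).toEquiv] at h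
    refine Eq.trans (Finset.sum_congr rfl fun ν _ => ?_) h
    have h5 : (MulAut.conj η⁻¹).toEquiv ν = η⁻¹ * ν * η := by
      change η⁻¹ * ν * η⁻¹⁻¹ = η⁻¹ * ν * η
      rw [inv_inv]
    rw [h5]
    by_cases hν : ν ∈ Nlin q g (c i) (c (i + 1))
    · rw [if_pos hν, if_pos ((h3 ν).1 hν)]
      change V (om l (γ * ν) u) = _
      rw [h2]
    · rw [if_neg hν, if_neg fun h6 => hν ((h3 ν).2 h6)]

end Pool.Agent.Lib.MP_3e612f_nt.LU
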