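import Pool.Agent.Lib.MP_3e612f_nt.PS.Mix
import Pool.Agent.Lib.MP_3e612f_nt.LU.Ram
import Pool.Agent.Lib.MP_3e612f_nt.LU.Prod
import Pool.Agent.Lib.MP_3e612f_nt.LU.Rep

/-!
Pair correlations of two different digit products, one balanced.
-/

set_option autoImplicit false

namespace Pool.Agent.Lib.MP_3e612f_nt.LU

open Finset
open Pool.Agent.Lib.MP_3e612f_nt.PB
open Pool.Agent.Lib.MP_3e612f_nt.PS (rho)

variable {G : Type} [Group G] [Fintype G] {q : ℕ → ℕ} {g₁ g₂ : ℕ → ℕ → G} {B : ℕ} {p r k : ℕ}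

/-- one balanced piece against an arbitrary function with few cut points -/
theorem pair_one (hq : Rad B q) (hg₁ : Neu g₁) (hg₂ : Neu g₂) (hp : 2 ≤ p) (hpr : p + 2 ≤ r)
    (hr : r.Prime) (hrq : ∀ j, ¬ r ∣ q j) (hk : p * r < 2 ^ k)
    (hG : Fintype.card (G × G) < r) {c₁ c₂ : ℕ → ℕ} (hc₁0 : c₁ 0 = 0) (hc₁ : Monotone c₁)
    (hc₂0 : c₂ 0 = 0) (hc₂ : Monotone c₂) {n n₁ n₂ K κ : ℕ} (hn₁ : n ≤ n₁) (hKc : K ≤ c₁ n)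
    (i : Fin n₂) (hiK : c₂ (i + 1) ≤ K)
    (hR : Rich (Nlin q g₂) (c₂ i) (c₂ (i + 1))
      ((n + 2) * ((5 * k + 1) * (κ + 1)) ^ Fintype.card (G × G)))
    (V : (Fin n₁ → G) → ℝ) (hV : ∀ ω, |V ω| ≤ 2) (Δ : (Fin n₂ → G) → ℝ) (hΔ : ∀ ω, |Δ ω| ≤ 2)
    (hbal : BalAt i (Nlin q g₂ (c₂ i) (c₂ (i + 1))) Δ) (s₁ s₂ y : ℕ) :
    |∑ v ∈ range (Qr q 0 K), V (fun j => zz q g₁ c₁ j (p * (v + Qr q 0 K * y) + s₁)) *
        Δ (fun j => zz q g₂ c₂ j (r * (v + Qr q 0 K * y) + s₂))| ≤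
      4 * (Fintype.card (G × G) : ℝ) * Real.sqrt (rho (G × G) B k ^ κ) * Qr q 0 K := by
  classical
  obtain ⟨i₁, hi₁, a', b', h1, h2, h3, h4, h5, h6, h7⟩ := rich_two
    (Nf := Nlin q g₂) (Nf' := Nlin q (gg g₁ g₂)) (fun a b a' b' e1 e2 => Nlin_mono e1 e2)
    (fun a b a' b' e1 e2 => Nlin_mono e1 e2)
    (M := (5 * k + 1) * (κ + 1)) (Nat.mul_pos (by omega) (by omega)) hR hc₁
    (by rw [hc₁0]; exact Nat.zero_le _) (hiK.trans hKc)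
  have hsp : Spaced (Nlin q (gg g₁ g₂)) k a' b' κ := spaced_of_rich h7 le_rfl
  obtain ⟨Φ, hΦ1, hΦ2, -⟩ := rep_sub (g := g₁) hq hc₁0 hc₁ (⟨i₁, by omega⟩ : Fin n₁) (a' := a')
    (b' := b') h4 h2 h5 V
  obtain ⟨Ψ, hΨ1, hΨ2, hΨ3⟩ := rep_sub (g := g₂) hq hc₂0 hc₂ i (a' := a') (b' := b') h1 h2 h3 Δ
  have hb : ∀ l (γ : G × G) u, ∑ ν : G × G,
      (if ν ∈ Nlin q (gg g₁ g₂) a' b' then Ψ l (γ * ν).2 u else 0) = 0 := by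
    intro l γ u
    refine bal_snd (N := Nlin q g₂ (c₂ i) (c₂ (i + 1))) (by rw [Nlin_gg, h6])
      (fun ν => Ψ l (γ.2 * ν) u) (hΨ3 hbal l γ.2 u)
  have h := PS.mixA (g := gg g₁ g₂) hq (Neu_gg hg₁ hg₂) hp hpr hr hrq hk hG h2 (h3.trans hiK) hsp
    (fun l γ u => Φ l γ.1 u) (fun l γ u => Ψ l γ.2 u) (fun l γ u => hΦ2 2 hV l γ.1 u)
    (fun l γ u => hΨ2 2 hΔ l γ.2 u) hb
    (fun x => V (fun j => zz q g₁ c₁ j x)) (fun x => Δ (fun j => zz q g₂ c₂ j x))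
    (fun x => by rw [hw_gg]; exact hΦ1 x) (fun x => by rw [hw_gg]; exact hΨ1 x) s₁ s₂ y
  exact h

end Pool.Agent.Lib.MP_3e612f_nt.LU
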