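import Pool.Agent.Lib.MP_3e612f_nt.PS.PairBlock
import Pool.Agent.Lib.MP_3e612f_nt.PB.Final
import Pool.Agent.Lib.MP_3e612f_nt.LU.Dec
import Pool.Agent.Lib.MP_3e612f_nt.LU.Pair

/-!
Structured and unstructured parts of one digit product; pair correlations of unstructured parts.
-/

set_option autoImplicit false

namespace Pool.Agent.Lib.MP_3e612f_nt.LU

open Finset
open Pool.Agent.Lib.MP_3e612f_nt.PB
open Pool.Agent.Lib.MP_3e612f_nt.PS (rho)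

variable {G : Type} [Group G] [Fintype G]

/-- unstructured functions: `n` pieces below the position `K`, richness `κt` -/
def Uns (q : ℕ → ℕ) (g : ℕ → ℕ → G) (K n κt : ℕ) (V : ℕ → ℝ) : Prop :=
  ∃ (n₁ : ℕ) (c : ℕ → ℕ) (S : Finset ℕ) (W : (Fin n₁ → G) → ℝ)
    (Δ : Fin n₁ → (Fin n₁ → G) → ℝ), n ≤ n₁ ∧ c 0 = 0 ∧ Monotone c ∧ c n = K ∧ S ⊆ range n ∧
    (∀ i ∈ S, Rich (Nlin q g) (c i) (c (i + 1)) κt) ∧ (∀ ω, |W ω| ≤ 2) ∧
    (∀ i ω, |Δ i ω| ≤ 2) ∧ (∀ ω, W ω = ∑ i, Δ i ω) ∧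
    (∀ i : Fin n₁, (i : ℕ) ∈ S → BalAt i (Nlin q g (c i) (c (i + 1))) (Δ i)) ∧
    (∀ i : Fin n₁, (i : ℕ) ∉ S → ∀ ω, Δ i ω = 0) ∧ ∀ m, V m = W (fun j => zz q g c j m)

theorem Uns_abs {q : ℕ → ℕ} {g : ℕ → ℕ → G} {K n κt : ℕ} {V : ℕ → ℝ} (h : Uns q g K n κt V)
    (m : ℕ) : |V m| ≤ 2 := by
  obtain ⟨n₁, c, S, W, Δ, -, -, -, -, -, -, hW, -, -, -, -, hV⟩ := h
  rw [hV]
  exact hW _

/-- pair correlations over one aligned block -/
theorem uns_pair {q : ℕ → ℕ} {g₁ g₂ : ℕ → ℕ → G} {B p r k : ℕ} (hq : Rad B q) (hg₁ : Neu g₁)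
    (hg₂ : Neu g₂) (hp : 2 ≤ p) (hpr : p + 2 ≤ r) (hr : r.Prime) (hrq : ∀ j, ¬ r ∣ q j)
    (hk : p * r < 2 ^ k) (hG : Fintype.card (G × G) < r) {K n κ : ℕ} {V₁ V₂ : ℕ → ℝ}
    (h₁ : Uns q g₁ K n ((n + 2) * ((5 * k + 1) * (κ + 1)) ^ Fintype.card (G × G)) V₁)
    (h₂ : Uns q g₂ K n ((n + 2) * ((5 * k + 1) * (κ + 1)) ^ Fintype.card (G × G)) V₂)
    (s₁ s₂ y : ℕ) :
    |∑ v ∈ range (Qr q 0 K), V₁ (p * (v + Qr q 0 K * y) + s₁) *
        V₂ (r * (v + Qr q 0 K * y) + s₂)| ≤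
      (n * (4 * (Fintype.card (G × G) : ℝ) * Real.sqrt (rho (G × G) B k ^ κ))) * Qr q 0 K := by
  obtain ⟨n₁, c₁, S₁, W₁, Δ₁, a1, a2, a3, a4, a5, a6, a7, a8, a9, a10, a11, a12⟩ := h₁
  obtain ⟨n₂, c₂, S₂, W₂, Δ₂, b1, b2, b3, b4, b5, b6, b7, b8, b9, b10, b11, b12⟩ := h₂
  have hC : 0 ≤ 4 * (Fintype.card (G × G) : ℝ) * Real.sqrt (rho (G × G) B k ^ κ) * Qr q 0 K := by
    positivity
  have hterm : ∀ i : Fin n₂,
      |∑ v ∈ range (Qr q 0 K), W₁ (fun j => zz q g₁ c₁ j (p * (v + Qr q 0 K * y) + s₁)) *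
        Δ₂ i (fun j => zz q g₂ c₂ j (r * (v + Qr q 0 K * y) + s₂))| ≤
      (if (i : ℕ) ∈ S₂ then 4 * (Fintype.card (G × G) : ℝ) *
        Real.sqrt (rho (G × G) B k ^ κ) * Qr q 0 K else 0) := by
    intro i
    by_cases hi : (i : ℕ) ∈ S₂
    · rw [if_pos hi]
      have hin : (i : ℕ) < n := Finset.mem_range.1 (b5 hi)
      exact pair_one hq hg₁ hg₂ hp hpr hr hrq hk hG a2 a3 b2 b3 a1 (le_of_eq a4.symm) i
        (by rw [← b4]; exact b3 hin) (b6 i hi) W₁ a7 (Δ₂ i) (b8 i) (b10 i hi) s₁ s₂ y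
    · rw [if_neg hi]
      have h0 : ∀ v ∈ range (Qr q 0 K),
          W₁ (fun j => zz q g₁ c₁ j (p * (v + Qr q 0 K * y) + s₁)) *
            Δ₂ i (fun j => zz q g₂ c₂ j (r * (v + Qr q 0 K * y) + s₂)) = 0 := by
        intro v _
        rw [b11 i hi, mul_zero]
      rw [Finset.sum_eq_zero h0, abs_zero]
  have hexp : ∑ v ∈ range (Qr q 0 K), V₁ (p * (v + Qr q 0 K * y) + s₁) *
        V₂ (r * (v + Qr q 0 K * y) + s₂) =
      ∑ i : Fin n₂, ∑ v ∈ range (Qr q 0 K),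
        W₁ (fun j => zz q g₁ c₁ j (p * (v + Qr q 0 K * y) + s₁)) *
          Δ₂ i (fun j => zz q g₂ c₂ j (r * (v + Qr q 0 K * y) + s₂)) := by
    rw [Finset.sum_comm]
    refine Finset.sum_congr rfl fun v _ => ?_
    rw [a12, b12, ← Finset.mul_sum, ← b9]
  rw [hexp]
  calc |∑ i : Fin n₂, ∑ v ∈ range (Qr q 0 K),
        W₁ (fun j => zz q g₁ c₁ j (p * (v + Qr q 0 K * y) + s₁)) *
          Δ₂ i (fun j => zz q g₂ c₂ j (r * (v + Qr q 0 K * y) + s₂))|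
      ≤ ∑ i : Fin n₂, |∑ v ∈ range (Qr q 0 K),
        W₁ (fun j => zz q g₁ c₁ j (p * (v + Qr q 0 K * y) + s₁)) *
          Δ₂ i (fun j => zz q g₂ c₂ j (r * (v + Qr q 0 K * y) + s₂))| :=
        Finset.abs_sum_le_sum_abs _ _
    _ ≤ ∑ i : Fin n₂, (if (i : ℕ) ∈ S₂ then 4 * (Fintype.card (G × G) : ℝ) *
        Real.sqrt (rho (G × G) B k ^ κ) * Qr q 0 K else 0) :=
        Finset.sum_le_sum fun i _ => hterm i
    _ = ∑ i ∈ range n₂, (if i ∈ S₂ then 4 * (Fintype.card (G × G) : ℝ) *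
        Real.sqrt (rho (G × G) B k ^ κ) * Qr q 0 K else 0) :=
        Fin.sum_univ_eq_sum_range (fun i : ℕ => (if i ∈ S₂ then
          4 * (Fintype.card (G × G) : ℝ) *
          Real.sqrt (rho (G × G) B k ^ κ) * Qr q 0 K else 0)) n₂
    _ = (S₂.card : ℝ) * (4 * (Fintype.card (G × G) : ℝ) *
        Real.sqrt (rho (G × G) B k ^ κ) * Qr q 0 K) := by
        rw [Finset.sum_ite_mem, Finset.inter_eq_right.2 (b5.trans (Finset.range_mono b1)),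
          Finset.sum_const, nsmul_eq_mul]
    _ ≤ (n : ℝ) * (4 * (Fintype.card (G × G) : ℝ) *
        Real.sqrt (rho (G × G) B k ^ κ) * Qr q 0 K) := by
        refine mul_le_mul_of_nonneg_right ?_ hC
        have := Finset.card_le_card b5
        rw [card_range] at this
        exact_mod_cast this
    _ = _ := by ring

/-- the decomposition of one digit product -/
theorem exists_parts (G : Type) [Group G] [Fintype G] (B : ℕ) (f : ℕ → ℕ) :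
    ∃ R : ℕ, ∀ q : ℕ → ℕ, Rad B q → ∀ g : ℕ → ℕ → G, Neu g → ∀ K L : ℕ, K ≤ L →
      ∀ F : G → ℝ, (∀ x, |F x| ≤ 1) →
      ∃ n ≤ R, ∃ U V : ℕ → ℝ, (∀ m, F (hw q g 0 L m) = U m + V m) ∧
        (∃ n' ≤ n + (L - K) + 1, ∃ D : Fin n' → ℕ, (∀ i, 1 ≤ D i) ∧
          ∃ Ψ : (Fin n' → ℕ) → ℝ, (∀ e, |Ψ e| ≤ 1) ∧
            ∀ m, U m = Ψ (fun i => m / D i % (Fintype.card G * B.factorial))) ∧
        Uns q g K n (f n) V := by
  classical
  obtain ⟨R, hR⟩ := dec_growth G f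
  refine ⟨R, fun q hq g hg K L hKL F hF => ?_⟩
  obtain ⟨n, hnR, c, hc0, hcn, hc, S, hSn, hSs, hSr⟩ :=
    hR (Nlin q g) (fun a b a' b' h1 h2 => Nlin_mono h1 h2) K
  obtain ⟨c', hc'0, hc'n, hc', hc'e, hc's⟩ := extend_dec hc0 hcn hc hKL S hSn hSs
  set n' := n + (L - K) with hn'
  obtain ⟨We, Δ, hWe, hinv, hsum, hΔ, hbal, hzero⟩ := exists_split (n := n')
    (fun i => if (i : ℕ) ∈ S then Nlin q g (c' i) (c' (i + 1)) else ⊥)
    (fun ω => F (List.ofFn ω).prod) (fun ω => hF _)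
  obtain ⟨Ψ, hΨ, hΨe⟩ := str_rep hq hg hc'0 hc' (n := n') S hc's We hWe (by
    intro i hi
    have := hinv i
    rwa [if_pos hi] at this)
  have hV2 : ∀ ω, |∑ i, Δ i ω| ≤ 2 := by
    intro ω
    have h1 := hsum ω
    have h2 : ∑ i, Δ i ω = F (List.ofFn ω).prod - We ω := by linarith
    rw [h2]
    have h3 := hF (List.ofFn ω).prod
    have h4 := hWe ω
    exact (abs_sub _ _).trans (by linarith)
  refine ⟨n, hnR, fun m => We (fun j => zz q g c' j m),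
    fun m => ∑ i, Δ i (fun j => zz q g c' j m), ?_, ?_, ?_⟩
  · intro m
    show F (hw q g 0 L m) = We (fun j => zz q g c' j m) + ∑ i, Δ i (fun j => zz q g c' j m)
    rw [← hsum (fun j => zz q g c' j m), ← hc'n, ← zz_prod q g hc'0 hc' n' m]
  · exact ⟨n' + 1, le_rfl, fun j => Qr q 0 (c' j), fun j => Qr_pos hq _ _, Ψ, hΨ, hΨe⟩
  · refine ⟨n', c', S, fun ω => ∑ i, Δ i ω, Δ, Nat.le_add_right _ _, hc'0, hc', ?_, hSn, ?_, hV2,
      hΔ, fun _ => rfl, ?_, ?_, fun m => rfl⟩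
    · rw [hc'e n le_rfl, hcn]
    · intro i hi
      have h1 := Finset.mem_range.1 (hSn hi)
      rw [hc'e (i + 1) (by omega), hc'e i (by omega)]
      exact hSr i hi
    · intro i hi
      have := hbal i
      rwa [if_pos hi] at this
    · intro i hi ω
      exact hzero i (if_neg hi) ω

end Pool.Agent.Lib.MP_3e612f_nt.LU
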