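import Pool.Agent.Lib.MP_3e612f_nt.PS.Final
import Pool.Agent.Lib.MP_3e612f_nt.PS.SubA
import Pool.Agent.Lib.MP_3e612f_nt.LO.D.Kat
import Pool.Agent.Lib.MP_3e612f_nt.LU.Uns
import Pool.Agent.Lib.MP_3e612f_nt.LU.Base

/-!
The local theorem for digit products with values in a finite group.
-/

set_option autoImplicit false

namespace Pool.Agent.Lib.MP_3e612f_nt.LU

open Finset Filter Topology
open Pool.Agent.Lib.MP_3e612f_nt.PB
open Pool.Agent.Lib.MP_3e612f_nt.PS (rho rho_nonneg rho_lt_one)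
open Pool.Agent.Lib.MP_3e612f_nt.LOD
open Pool.Agent.Lib.MP_3e612f_nt.PI (ee mc)

/-- Katai for unstructured functions with `n` pieces; the richness is chosen after `ε` -/
theorem unstr_class (G : Type) [Group G] [Fintype G] (B n : ℕ) {ε : ℝ} (hε : 0 < ε) :
    ∃ (κt : ℕ) (δ : ℝ) (h0 : ℕ), 0 < δ ∧ ∀ h ≥ h0, ∃ X0 : ℕ, ∀ X ≥ X0, ∀ q : ℕ → ℕ, Rad B q →
      ∀ K : ℕ, (Qr q 0 K : ℝ) ≤ δ * h → ∀ (g : ℕ → ℕ → ℕ → G), (∀ x, Neu (g x)) →
      ∀ (s : ℕ → ℕ) (V : ℕ → ℕ → ℝ), (∀ x, Uns q (g x) K n κt (V x) ∨ ∀ m, V x m = 0) →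
        ∑ x ∈ range X, ‖∑ m ∈ range h, mc (x + m) * (V x (m + s x) : ℂ)‖ ≤ ε * h * X := by
  obtain ⟨P, δ, h0, hP, hδ, hkat⟩ := lkat (max B (Fintype.card (G × G))) (half_pos hε)
  obtain ⟨k, hk⟩ : ∃ k : ℕ, ∀ p ∈ P, ∀ r ∈ P, p * r < 2 ^ k := by
    refine ⟨P.sup id * P.sup id, fun p hp r hr => ?_⟩
    have h1 : p ≤ P.sup id := Finset.le_sup (f := id) hp
    have h2 : r ≤ P.sup id := Finset.le_sup (f := id) hr
    calc p * r ≤ P.sup id * P.sup id := Nat.mul_le_mul h1 h2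
      _ < 2 ^ (P.sup id * P.sup id) := Nat.lt_two_pow_self
  set ρ : ℝ := rho (G × G) B k with hρ
  have hρ1 : ρ < 1 := rho_lt_one (G × G) B k
  have hρ0 : 0 ≤ ρ := rho_nonneg (G × G) B k
  obtain ⟨κ, hκ⟩ : ∃ κ : ℕ, (n : ℝ) * (4 * (Fintype.card (G × G) : ℝ) * Real.sqrt (ρ ^ κ)) ≤ δ := by
    have h1 : Tendsto (fun κ : ℕ => (n : ℝ) * (4 * (Fintype.card (G × G) : ℝ) *
        Real.sqrt (ρ ^ κ))) atTop (𝓝 0) := by
      have h4 := tendsto_pow_atTop_nhds_zero_of_lt_one hρ0 hρ1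
      have h5 := (Real.continuous_sqrt.tendsto 0).comp h4
      rw [Real.sqrt_zero] at h5
      have h6 := (h5.const_mul (4 * (Fintype.card (G × G) : ℝ))).const_mul (n : ℝ)
      rw [mul_zero, mul_zero] at h6
      exact h6
    exact ((h1.eventually (gt_mem_nhds hδ)).exists).imp fun _ h => h.le
  refine ⟨(n + 2) * ((5 * k + 1) * (κ + 1)) ^ Fintype.card (G × G), δ / 8, max h0 1,
    by positivity, fun h hh => ?_⟩
  have hh0 : h0 ≤ h := (le_max_left _ _).trans hh
  have hh1 : 1 ≤ h := (le_max_right _ _).trans hh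
  obtain ⟨X0, hX0⟩ := hkat h hh0
  refine ⟨X0, fun X hX q hq K hK g hg s V hV => ?_⟩
  have hV2 : ∀ x m, |V x m| ≤ 2 := by
    intro x m
    rcases hV x with h1 | h1
    · exact Uns_abs h1 m
    · rw [h1, abs_zero]
      norm_num
  have hhr : (1 : ℝ) ≤ h := by exact_mod_cast hh1
  -- real pair sums
  have hpair : ∀ p ∈ P, ∀ r ∈ P, p < r → ∀ x y s1 s2 : ℕ, ∀ N' ≤ h,
      |∑ m ∈ Icc 1 N', V x (p * m + s1) * V y (r * m + s2)| ≤ 4 * (δ * h) := by
    intro p hp r hr hpr x y s1 s2 N' hN'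
    rcases hV x with hx | hx
    swap
    · rw [Finset.sum_eq_zero fun m _ => by rw [hx, zero_mul], abs_zero]
      positivity
    rcases hV y with hy | hy
    swap
    · rw [Finset.sum_eq_zero fun m _ => by rw [hy, mul_zero], abs_zero]
      positivity
    have hpp := hP p hp
    have hrr := hP r hr
    have hrq : ∀ j, ¬ r ∣ q j := by
      intro j hd
      have h1 := Nat.le_of_dvd (by have := (hq j).1; omega) hd
      have h2 := (hq j).2
      have h3 := le_max_left B (Fintype.card (G × G))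
      omega
    have hGr : Fintype.card (G × G) < r := lt_of_le_of_lt (le_max_right _ _) hrr.2
    have hp3 : 3 ≤ p := by
      have h1 := le_max_left B (Fintype.card (G × G))
      have h2 := hpp.2
      have h3 := (hq 0).1
      have h4 := (hq 0).2
      omega
    have hpr2 : p + 2 ≤ r := by
      have h1 : p % 2 = 1 := by
        rcases hpp.1.eq_two_or_odd with h | h
        · omega
        · exact h
      have h2 : r % 2 = 1 := by
        rcases hrr.1.eq_two_or_odd with h | h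
        · omega
        · exact h
      omega
    have hτ0 : 0 ≤ (n : ℝ) * (4 * (Fintype.card (G × G) : ℝ) * Real.sqrt (ρ ^ κ)) := by positivity
    have hblock := fun z => uns_pair hq (hg x) (hg y) (by omega : 2 ≤ p) hpr2 hrr.1 hrq
      (hk p hp r hr) hGr hx hy s1 s2 z
    have h1 := sum_of_blocks (fun m => V x (p * m + s1) * V y (r * m + s2))
      (by
        intro m
        rw [abs_mul]
        calc |V x (p * m + s1)| * |V y (r * m + s2)| ≤ 2 * 2 :=
              mul_le_mul (hV2 _ _) (hV2 _ _) (abs_nonneg _) (by norm_num)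
          _ = 4 := by norm_num)
      (Qr_pos hq 0 K) hτ0 hblock N'
    refine h1.trans ?_
    have h3 : (N' : ℝ) ≤ h := by exact_mod_cast hN'
    have h5 : ((n : ℝ) * (4 * (Fintype.card (G × G) : ℝ) * Real.sqrt (ρ ^ κ))) * ((N' : ℝ) + 1)
        ≤ δ * (h + h) := by
      refine mul_le_mul hκ (by linarith) (by positivity) hδ.le
    have h6 : (8 : ℝ) * Qr q 0 K ≤ δ * h := by
      have := hK
      linarith
    nlinarith
  have hmain := hX0 X hX s (fun x m => ((V x m / 2 : ℝ) : ℂ)) (by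
      intro x m
      rw [Complex.norm_real, Real.norm_eq_abs, abs_div, abs_of_pos (by norm_num : (0 : ℝ) < 2),
        div_le_one (by norm_num)]
      exact hV2 x m) (by
      intro p hp r hr hpr x y s1 s2 N' hN'
      have h1 := hpair p hp r hr hpr x y s1 s2 N' hN'
      have e : ∑ m ∈ Icc 1 N', ((V x (p * m + s1) / 2 : ℝ) : ℂ) * ((V y (r * m + s2) / 2 : ℝ) : ℂ) =
          (((∑ m ∈ Icc 1 N', V x (p * m + s1) * V y (r * m + s2)) / 4 : ℝ) : ℂ) := by
        rw [Finset.sum_div]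
        push_cast
        refine Finset.sum_congr rfl fun m _ => ?_
        ring
      have h2 : ‖∑ m ∈ Icc 1 N', ((V x (p * m + s1) / 2 : ℝ) : ℂ) *
          ((V y (r * m + s2) / 2 : ℝ) : ℂ)‖ ≤ δ * h := by
        rw [e, Complex.norm_real, Real.norm_eq_abs, abs_div,
          abs_of_pos (by norm_num : (0 : ℝ) < 4), div_le_iff₀ (by norm_num)]
        linarith
      refine ⟨h2, ?_⟩
      have e2 : ∀ m, (starRingEnd ℂ) ((V y (r * m + s2) / 2 : ℝ) : ℂ) =
          ((V y (r * m + s2) / 2 : ℝ) : ℂ) := fun m => Complex.conj_ofReal _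
      simp only [e2]
      exact h2)
  have e : ∀ x, ∑ m ∈ range h, mc (x + m) * (V x (m + s x) : ℂ) =
      2 * ∑ m ∈ range h, mc (x + m) * ((V x (m + s x) / 2 : ℝ) : ℂ) := by
    intro x
    rw [Finset.mul_sum]
    refine Finset.sum_congr rfl fun m _ => ?_
    push_cast
    ring
  simp only [e]
  have e2 : ∀ x, ‖(2 : ℂ) * ∑ m ∈ range h, mc (x + m) * ((V x (m + s x) / 2 : ℝ) : ℂ)‖ =
      2 * ‖∑ m ∈ range h, mc (x + m) * ((V x (m + s x) / 2 : ℝ) : ℂ)‖ := by
    intro x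
    rw [norm_mul]
    norm_num
  simp only [e2]
  rw [← Finset.mul_sum]
  calc 2 * ∑ x ∈ range X, ‖∑ m ∈ range h, mc (x + m) * ((V x (m + s x) / 2 : ℝ) : ℂ)‖
      ≤ 2 * (ε / 2 * h * X) := mul_le_mul_of_nonneg_left hmain (by norm_num)
    _ = ε * h * X := by ring

/-- programs of length `L`, where `q 0 ⋯ q (L - 3) ≤ h` -/
theorem local_short (hMR : MRp) (G : Type) [Group G] [Fintype G] (B : ℕ) {ε : ℝ} (hε : 0 < ε) :
    ∃ h0 : ℕ, ∀ h ≥ h0, ∃ X0 : ℕ, ∀ X ≥ X0, ∀ q : ℕ → ℕ, Rad B q → ∀ L : ℕ,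
      (∀ l, l + 1 < L → Qr q 0 l ≤ h) →
      ∀ (g : ℕ → ℕ → ℕ → G) (s : ℕ → ℕ) (F : ℕ → G → ℝ), (∀ x, Neu (g x)) →
        (∀ x z, |F x z| ≤ 1) →
        ∑ x ∈ range X, ‖∑ m ∈ range h, mc (x + m) * (F x (hw q (g x) 0 L (m + s x)) : ℂ)‖ ≤
          ε * h * X := by
  classical
  -- the classes
  have hεn : ∀ n : ℕ, 0 < ε / 4 * (1 / 2) ^ n := fun n => by positivity
  choose f δ h0 hδ hcl using fun n : ℕ => unstr_class G B n (hεn n)
  obtain ⟨R, hR⟩ := exists_parts G B f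
  obtain ⟨δs, hδs, hδsl⟩ : ∃ δs : ℝ, 0 < δs ∧ ∀ n ≤ R, δs ≤ δ n := by
    obtain ⟨n0, hn0, hmin⟩ := Finset.exists_min_image (range (R + 1)) δ ⟨0, by simp⟩
    exact ⟨δ n0, hδ n0, fun n hn => hmin n (by rw [mem_range]; omega)⟩
  obtain ⟨w, hww⟩ : ∃ w : ℕ, 1 / δs < 2 ^ w := pow_unbounded_of_one_lt _ one_lt_two
  have hM : 1 ≤ Fintype.card G * B.factorial :=
    Nat.mul_pos Fintype.card_pos (Nat.factorial_pos B)
  obtain ⟨h1, hfl⟩ := lfloor hMR hM (R + w + 4) (half_pos hε)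
  obtain ⟨h2, hh2⟩ := exists_nat_gt (1 / δs)
  refine ⟨(∑ n ∈ range (R + 1), h0 n) + h1 + h2 + 1, fun h hh => ?_⟩
  have hh0 : ∀ n ≤ R, h0 n ≤ h := by
    intro n hn
    have e : n ∈ range (R + 1) := mem_range.2 (by omega)
    have e1 := Finset.single_le_sum (f := h0) (fun _ _ => Nat.zero_le _) e
    have e2 : h0 n ≤ ∑ n ∈ range (R + 1), h0 n := e1
    omega
  have hhr : (1 : ℝ) ≤ h := by
    have : 1 ≤ h := by omega
    exact_mod_cast this
  have hδh : 1 ≤ δs * h := by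
    have h3 : (1 / δs : ℝ) < h := lt_of_lt_of_le hh2 (by
      have : h2 ≤ h := by omega
      exact_mod_cast this)
    rw [div_lt_iff₀ hδs] at h3
    linarith
  choose! X1 hX1 using fun (n : ℕ) (hn : n ≤ R) => hcl n h (hh0 n hn)
  obtain ⟨X2, hX2⟩ := hfl h (by omega)
  refine ⟨(∑ n ∈ range (R + 1), X1 n) + X2, fun X hX q hq L hL g s F hg hF => ?_⟩
  have hX1' : ∀ n ≤ R, X1 n ≤ X := by
    intro n hn
    have e : n ∈ range (R + 1) := mem_range.2 (by omega)
    have e1 := Finset.single_le_sum (f := X1) (fun _ _ => Nat.zero_le _) e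
    have e2 : X1 n ≤ ∑ n ∈ range (R + 1), X1 n := e1
    omega
  -- the inner number of positions
  set K := Nat.findGreatest (fun l => (Qr q 0 l : ℝ) ≤ δs * h) L with hK
  have hK0 : (Qr q 0 K : ℝ) ≤ δs * h := by
    have := Nat.findGreatest_spec (P := fun l => (Qr q 0 l : ℝ) ≤ δs * h) (m := 0) (n := L)
      (Nat.zero_le _) (by rw [Qr_zero]; simpa using hδh)
    exact this
  have hKL : K ≤ L := Nat.findGreatest_le _
  have hKw : L - K ≤ w + 3 := by
    by_contra hcon'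
    push Not at hcon'
    have e1 : ¬ ((Qr q 0 (K + 1) : ℝ) ≤ δs * h) :=
      Nat.findGreatest_is_greatest (P := fun l => (Qr q 0 l : ℝ) ≤ δs * h)
        (Nat.lt_succ_self K) (by omega)
    push Not at e1
    have e2 : Qr q 0 (L - 2) ≤ h := hL _ (by omega)
    have e3 : Qr q 0 (L - 2) = Qr q 0 (K + 1) * Qr q (0 + (K + 1)) (L - 2 - (K + 1)) := by
      rw [← Qr_add]
      congr 1
      omega
    have e4 : 2 ^ (L - 2 - (K + 1)) ≤ Qr q (0 + (K + 1)) (L - 2 - (K + 1)) :=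
      two_pow_le_Qr hq _ _
    have e5 : 2 ^ w ≤ 2 ^ (L - 2 - (K + 1)) := Nat.pow_le_pow_right (by norm_num) (by omega)
    have e6 : Qr q 0 (K + 1) * 2 ^ w ≤ h := by
      calc Qr q 0 (K + 1) * 2 ^ w ≤ Qr q 0 (K + 1) * Qr q (0 + (K + 1)) (L - 2 - (K + 1)) :=
            Nat.mul_le_mul_left _ (e5.trans e4)
        _ = Qr q 0 (L - 2) := e3.symm
        _ ≤ h := e2
    have e7 : (Qr q 0 (K + 1) : ℝ) * 2 ^ w ≤ h := by exact_mod_cast e6
    have e8 : δs * h * 2 ^ w < h := by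
      refine lt_of_lt_of_le ?_ e7
      exact mul_lt_mul_of_pos_right e1 (by positivity)
    have e9 : 1 < δs * 2 ^ w := by
      rw [div_lt_iff₀ hδs] at hww
      linarith
    have e10 : (h : ℝ) < δs * h * 2 ^ w := by
      calc (h : ℝ) = 1 * h := (one_mul _).symm
        _ < (δs * 2 ^ w) * h := mul_lt_mul_of_pos_right e9 (by linarith)
        _ = δs * h * 2 ^ w := by ring
    linarith
  -- the parts
  choose n hnR U V hUV hU hV using fun x => hR q hq (g x) (hg x) K L hKL (F x) (hF x)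
  choose n' hn' D hD Ψ hΨ hΨe using hU
  have hstr : ∑ x ∈ range X, ‖∑ m ∈ range h, mc (x + m) * (U x (m + s x) : ℂ)‖ ≤
      ε / 2 * h * X := by
    have h3 := hX2 X (by omega) s n' (fun x => by
      have e1 := hn' x
      have e2 := hnR x
      omega) D hD (fun x e => ((Ψ x e : ℝ) : ℂ)) (fun x e => by
      rw [Complex.norm_real, Real.norm_eq_abs]
      exact hΨ x e)
    simp only [hΨe]
    exact h3
  -- the unstructured part
  have huns : ∑ x ∈ range X, ‖∑ m ∈ range h, mc (x + m) * (V x (m + s x) : ℂ)‖ ≤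
      ε / 2 * h * X := by
    have h3 : ∀ j ≤ R, ∑ x ∈ range X, ‖∑ m ∈ range h, mc (x + m) *
        ((if n x = j then V x (m + s x) else 0 : ℝ) : ℂ)‖ ≤ ε / 4 * (1 / 2) ^ j * h * X := by
      intro j hj
      refine hX1 j hj X (hX1' j hj) q hq K (hK0.trans ?_) g hg s
        (fun x m => if n x = j then V x m else 0) (fun x => ?_)
      · exact mul_le_mul_of_nonneg_right (hδsl j hj) (by linarith)
      · by_cases hx : n x = j
        · left
          have e1 : (fun m => if n x = j then V x m else 0) = V x := by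
            funext m
            rw [if_pos hx]
          rw [e1]
          have := hV x
          rwa [hx] at this
        · right
          intro m
          exact if_neg hx
    have h4 : ∀ x, ‖∑ m ∈ range h, mc (x + m) * (V x (m + s x) : ℂ)‖ =
        ∑ j ∈ range (R + 1), ‖∑ m ∈ range h, mc (x + m) *
          ((if n x = j then V x (m + s x) else 0 : ℝ) : ℂ)‖ := by
      intro x
      symm
      rw [Finset.sum_eq_single (n x)]
      · congr 1
        refine Finset.sum_congr rfl fun m _ => ?_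
        rw [if_pos rfl]
      · intro j _ hj
        have e1 : ∀ m ∈ range h, mc (x + m) *
            ((if n x = j then V x (m + s x) else 0 : ℝ) : ℂ) = 0 := by
          intro m _
          rw [if_neg (Ne.symm hj)]
          simp
        rw [Finset.sum_eq_zero e1, norm_zero]
      · intro h5
        exact absurd (mem_range.2 (Nat.lt_succ_of_le (hnR x))) h5
    rw [Finset.sum_congr rfl fun x _ => h4 x, Finset.sum_comm]
    have h5 : ∑ j ∈ range (R + 1), ∑ x ∈ range X, ‖∑ m ∈ range h, mc (x + m) *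
        ((if n x = j then V x (m + s x) else 0 : ℝ) : ℂ)‖ ≤
        ∑ j ∈ range (R + 1), ε / 4 * (1 / 2) ^ j * h * X :=
      Finset.sum_le_sum fun j hj => h3 j (by
        have := mem_range.1 hj
        omega)
    refine h5.trans ?_
    have h6 : ∑ j ∈ range (R + 1), ε / 4 * (1 / 2 : ℝ) ^ j * h * X =
        (∑ j ∈ range (R + 1), (1 / 2 : ℝ) ^ j) * (ε / 4 * h * X) := by
      rw [Finset.sum_mul]
      exact Finset.sum_congr rfl fun j _ => by ring
    rw [h6]
    have h7 : ∑ j ∈ range (R + 1), (1 / 2 : ℝ) ^ j ≤ 2 := by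
      have h8 := sum_geometric_two_le (R + 1)
      exact h8
    calc (∑ j ∈ range (R + 1), (1 / 2 : ℝ) ^ j) * (ε / 4 * h * X) ≤ 2 * (ε / 4 * h * X) :=
          mul_le_mul_of_nonneg_right h7 (by positivity)
      _ = ε / 2 * h * X := by ring
  have hfin : ∀ x, ‖∑ m ∈ range h, mc (x + m) * (F x (hw q (g x) 0 L (m + s x)) : ℂ)‖ ≤
      ‖∑ m ∈ range h, mc (x + m) * (U x (m + s x) : ℂ)‖ +
        ‖∑ m ∈ range h, mc (x + m) * (V x (m + s x) : ℂ)‖ := by
    intro x
    refine le_trans (le_of_eq ?_) (norm_add_le _ _)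
    congr 1
    rw [← Finset.sum_add_distrib]
    refine Finset.sum_congr rfl fun m _ => ?_
    rw [hUV x]
    push_cast
    ring
  refine (Finset.sum_le_sum fun x _ => hfin x).trans ?_
  rw [Finset.sum_add_distrib]
  refine (add_le_add hstr huns).trans (le_of_eq ?_)
  ring

/-- truncation and padding on a short interval -/
theorem trunc0 {G : Type} [Group G] {q : ℕ → ℕ} {B : ℕ} (hq : Rad B q) (g : ℕ → ℕ → G)
    (L s : ℕ) {h L' : ℕ} (hN : h ≤ Qr q 0 L') :
    ∃ g' : ℕ → ℕ → G, ∀ m < h, hw q g 0 L (m + s) = hw q g' 0 (L' + 1) (m + s) := by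
  classical
  rcases le_or_gt L (L' + 1) with hL | hL
  · obtain ⟨e, he⟩ := Nat.exists_eq_add_of_le hL
    refine ⟨fun j => if j < L then g j else fun _ => 1, fun m _ => ?_⟩
    rw [he, hw_add, PS.SubA_one q _ (0 + L) e _ fun a h1 _ d => ?_, mul_one]
    · refine PS.SubA_congr q _ _ 0 L _ fun a _ h2 d => ?_
      rw [if_pos (by omega)]
    · rw [if_neg (by omega)]
  · obtain ⟨l, rfl⟩ : ∃ l, L = L' + l := ⟨L - L', by omega⟩
    have hQ : 0 < Qr q 0 L' := Qr_pos hq 0 L'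
    refine ⟨fun j d => if j = L' then
        (if d = (s / Qr q 0 L') % q L' then hw q g L' l (s / Qr q 0 L')
          else hw q g L' l (s / Qr q 0 L' + 1))
        else g j d, fun m hm => ?_⟩
    rw [hw_add, hw_add, hw_one_len, Nat.zero_add]
    congr 1
    · refine PS.SubA_congr q _ _ 0 L' (m + s) fun i _ hi d => ?_
      rw [if_neg (by omega)]
    · rw [if_pos rfl]
      have h1 : s / Qr q 0 L' ≤ (m + s) / Qr q 0 L' := Nat.div_le_div_right (by omega)
      have h2 : (m + s) / Qr q 0 L' ≤ s / Qr q 0 L' + 1 := by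
        rw [← Nat.add_div_right _ hQ]
        exact Nat.div_le_div_right (by omega)
      rcases Nat.lt_or_ge (s / Qr q 0 L') ((m + s) / Qr q 0 L') with h3 | h3
      · have h4 : (m + s) / Qr q 0 L' = s / Qr q 0 L' + 1 := by omega
        rw [h4, if_neg]
        intro h5
        have h6 : s / Qr q 0 L' + 1 ≡ s / Qr q 0 L' + 0 [MOD q L'] := h5
        have h7 : 1 ≡ 0 [MOD q L'] := Nat.ModEq.add_left_cancel' _ h6
        have h8 : q L' ∣ 1 := (Nat.modEq_zero_iff_dvd).1 h7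
        have h9 := (hq L').1
        have h10 := Nat.le_of_dvd one_pos h8
        omega
      · have h4 : (m + s) / Qr q 0 L' = s / Qr q 0 L' := le_antisymm h3 h1
        rw [h4, if_pos rfl]

/-- all programs, real functions -/
theorem local_real (hMR : MRp) (G : Type) [Group G] [Fintype G] (B : ℕ) {ε : ℝ} (hε : 0 < ε) :
    ∃ h0 : ℕ, ∀ h ≥ h0, ∃ X0 : ℕ, ∀ X ≥ X0, ∀ q : ℕ → ℕ, Rad B q →
      ∀ (g : ℕ → ℕ → ℕ → G) (L s : ℕ → ℕ) (F : ℕ → G → ℝ), (∀ x z, |F x z| ≤ 1) →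
        ∑ x ∈ range X, ‖∑ m ∈ range h, mc (x + m) *
          (F x (hw q (g x) 0 (L x) (m + s x)) : ℂ)‖ ≤ ε * h * X := by
  obtain ⟨h0, hh0⟩ := local_short hMR G B hε
  refine ⟨h0, fun h hh => ?_⟩
  obtain ⟨X0, hX0⟩ := hh0 h hh
  refine ⟨X0, fun X hX q hq g L s F hF => ?_⟩
  have hex : ∃ l, h < Qr q 0 l := ⟨h, lt_Qr_self hq 0 h⟩
  set L' := Nat.find hex with hL'
  have hL'1 : h < Qr q 0 L' := Nat.find_spec hex
  have hL'2 : ∀ l, l < L' → Qr q 0 l ≤ h := fun l hl => not_lt.1 (Nat.find_min hex hl)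
  choose g' hg' using fun x => trunc0 hq (g x) (L x) (s x) hL'1.le
  choose g'' t hg'' hgt using fun x => gauge q (g' x) (L' + 1)
  have h1 := hX0 X hX q hq (L' + 1) (fun l hl => hL'2 l (by omega)) g'' s
    (fun x z => F x (z * t x)) hg'' (fun x z => hF x _)
  refine le_trans (le_of_eq ?_) h1
  refine Finset.sum_congr rfl fun x _ => ?_
  congr 1
  refine Finset.sum_congr rfl fun m hm => ?_
  rw [hg' x m (mem_range.1 hm), hgt x]

/-- **the local theorem for digit products** -/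
theorem local_all (hMR : MRp) (G : Type) [Group G] [Finite G] (B : ℕ) {ε : ℝ} (hε : 0 < ε) :
    ∃ h0 : ℕ, ∀ h ≥ h0, ∃ X0 : ℕ, ∀ X ≥ X0, ∀ q : ℕ → ℕ, Rad B q →
      ∀ (g : ℕ → ℕ → ℕ → G) (L s : ℕ → ℕ) (F : ℕ → G → ℂ), (∀ x z, ‖F x z‖ ≤ 1) →
        ∑ x ∈ range X, ‖∑ m ∈ range h, mc (x + m) * F x (hw q (g x) 0 (L x) (m + s x))‖ ≤
          ε * h * X := by
  have := Fintype.ofFinite G
  obtain ⟨h0, hh0⟩ := local_real hMR G B (half_pos hε)
  refine ⟨h0, fun h hh => ?_⟩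
  obtain ⟨X0, hX0⟩ := hh0 h hh
  refine ⟨X0, fun X hX q hq g L s F hF => ?_⟩
  have h1 := hX0 X hX q hq g L s (fun x z => (F x z).re)
    (fun x z => (Complex.abs_re_le_norm _).trans (hF _ _))
  have h2 := hX0 X hX q hq g L s (fun x z => (F x z).im)
    (fun x z => (Complex.abs_im_le_norm _).trans (hF _ _))
  have h3 : ∀ x, ‖∑ m ∈ range h, mc (x + m) * F x (hw q (g x) 0 (L x) (m + s x))‖ ≤
      ‖∑ m ∈ range h, mc (x + m) * ((F x (hw q (g x) 0 (L x) (m + s x))).re : ℂ)‖ +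
      ‖∑ m ∈ range h, mc (x + m) * ((F x (hw q (g x) 0 (L x) (m + s x))).im : ℂ)‖ := by
    intro x
    have e : ∑ m ∈ range h, mc (x + m) * F x (hw q (g x) 0 (L x) (m + s x)) =
        (∑ m ∈ range h, mc (x + m) * ((F x (hw q (g x) 0 (L x) (m + s x))).re : ℂ)) +
        (∑ m ∈ range h, mc (x + m) * ((F x (hw q (g x) 0 (L x) (m + s x))).im : ℂ)) *
          Complex.I := by
      rw [Finset.sum_mul, ← Finset.sum_add_distrib]
      refine Finset.sum_congr rfl fun m _ => ?_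
      conv_lhs => rw [← Complex.re_add_im (F x (hw q (g x) 0 (L x) (m + s x)))]
      ring
    rw [e]
    refine (norm_add_le _ _).trans ?_
    rw [norm_mul, Complex.norm_I, mul_one]
  refine (Finset.sum_le_sum fun x _ => h3 x).trans ?_
  rw [Finset.sum_add_distrib]
  refine (add_le_add h1 h2).trans (le_of_eq ?_)
  ring

end Pool.Agent.Lib.MP_3e612f_nt.LU
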