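import Pool.Agent.Lib.MP_3e612f_nt.PS.SubB
import Pool.Agent.Lib.MP_3e612f_nt.PS.SubC
import Pool.Agent.Lib.MP_3e612f_nt.PS.SubD2
import Pool.Agent.Lib.MP_3e612f_nt.LU.Main

/-!
The universal subshift for given radices.
-/

set_option autoImplicit false

namespace Pool.Agent.Lib.MP_3e612f_nt.LU

open Finset
open Pool.Agent.Lib.MP_3e612f_nt.PB
open Pool.Agent.Lib.MP_3e612f_nt.LOD
open Pool.Agent.Lib.MP_3e612f_nt.PI (ee mc)

/-- all sequences whose initial blocks occur in digit product sequences for the radices `q` -/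
def XQ (G : Type) [Group G] (q : ℕ → ℕ) : Set (ℕ → G) :=
  {x | ∀ l : ℕ, ∃ (g : ℕ → ℕ → G) (L s : ℕ), ∀ i < l, x i = hw q g 0 L (i + s)}

theorem XQ_nonempty (G : Type) [Group G] (q : ℕ → ℕ) : (fun _ => (1 : G)) ∈ XQ G q := by
  intro l
  exact ⟨fun _ _ => 1, 0, 0, fun i _ => rfl⟩

theorem XQ_shift {G : Type} [Group G] {q : ℕ → ℕ} {x : ℕ → G} (hx : x ∈ XQ G q) (n : ℕ) :
    (fun i => x (i + n)) ∈ XQ G q := by
  intro l
  obtain ⟨g, L, s, h⟩ := hx (l + n)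
  refine ⟨g, L, n + s, fun i hi => ?_⟩
  have h1 := h (i + n) (by omega)
  show x (i + n) = hw q g 0 L (i + (n + s))
  rw [h1, Nat.add_assoc]

theorem XQ_closed (G : Type) [Group G] [TopologicalSpace G] [DiscreteTopology G] (q : ℕ → ℕ) :
    IsClosed (XQ G q) := by
  rw [← isOpen_compl_iff, isOpen_iff_forall_mem_open]
  intro x hx
  have h1 : ∃ l : ℕ, ¬ ∃ (g : ℕ → ℕ → G) (L s : ℕ), ∀ i < l, x i = hw q g 0 L (i + s) := by
    by_contra h
    push Not at h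
    exact hx (fun l => h l)
  obtain ⟨l, hl⟩ := h1
  refine ⟨{y : ℕ → G | ∀ i < l, y i = x i}, ?_, PS.SubC_open_cyl x l, fun i _ => rfl⟩
  intro y hy hyU
  apply hl
  obtain ⟨g, L, s, h⟩ := hyU l
  exact ⟨g, L, s, fun i hi => (hy i hi).symm.trans (h i hi)⟩

theorem XQ_subset (G : Type) [Group G] {B : ℕ} {q : ℕ → ℕ} (hq : Rad B q) :
    XQ G q ⊆ PS.UX G B := by
  intro x hx l
  obtain ⟨g, L, s, h⟩ := hx l
  exact ⟨q, g, L, s, hq, h⟩

theorem XQ_entropy (G : Type) [Group G] [Finite G] [UniformSpace G] [DiscreteUniformity G]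
    {B : ℕ} (hB : 2 ≤ B) {q : ℕ → ℕ} (hq : Rad B q) :
    Dynamics.coverEntropy (fun (x : ℕ → G) i => x (i + 1)) (XQ G q) = 0 := by
  have h1 := PS.UX_entropy G B hB
  have h2 := Dynamics.coverEntropy_monotone (fun (x : ℕ → G) i => x (i + 1)) (XQ_subset G hq)
  refine le_antisymm (h2.trans (le_of_eq h1)) ?_
  exact Dynamics.coverEntropy_nonneg _ ⟨_, XQ_nonempty G q⟩

theorem sub_norm_mc (n : ℕ) : ‖mc n‖ ≤ 1 := base_norm_mc n

/-- one interval: replacing a function by another one -/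
theorem sub_sum (h x : ℕ) (P : ℕ → Prop) [DecidablePred P] (φ ψ : ℕ → ℂ) {ε c : ℝ}
    (hε : 0 < ε) (hφ : ∀ n, ‖φ n‖ ≤ 1) (hψ : ∀ n, ‖ψ n‖ ≤ 1)
    (hg : ∀ n < h, P n → ‖φ n - ψ n‖ ≤ ε)
    (hc : (((range h).filter fun n => ¬ P n).card : ℝ) ≤ c) :
    ‖∑ n ∈ range h, mc (x + n) * φ n‖ ≤ ‖∑ n ∈ range h, mc (x + n) * ψ n‖ + ε * h + 2 * c := by
  have e : ∑ n ∈ range h, mc (x + n) * φ n = (∑ n ∈ range h, mc (x + n) * ψ n) +
      ∑ n ∈ range h, mc (x + n) * (φ n - ψ n) := by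
    rw [← Finset.sum_add_distrib]
    exact Finset.sum_congr rfl fun n _ => by ring
  have h1 : ‖∑ n ∈ range h, mc (x + n) * (φ n - ψ n)‖ ≤
      ∑ n ∈ range h, (ε + if ¬ P n then 2 else 0) := by
    refine (norm_sum_le _ _).trans (Finset.sum_le_sum fun n hn => ?_)
    have h2 : ‖mc (x + n) * (φ n - ψ n)‖ ≤ ‖φ n - ψ n‖ := by
      rw [norm_mul]
      exact mul_le_of_le_one_left (norm_nonneg _) (sub_norm_mc _)
    refine h2.trans ?_
    by_cases hP : P n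
    · rw [if_neg (not_not.2 hP), add_zero]
      exact hg n (mem_range.1 hn) hP
    · rw [if_pos hP]
      have h3 := (norm_sub_le (φ n) (ψ n)).trans (add_le_add (hφ n) (hψ n))
      linarith
  have h2 : ∑ n ∈ range h, (ε + if ¬ P n then (2 : ℝ) else 0) =
      ε * h + 2 * ((range h).filter fun n => ¬ P n).card := by
    rw [Finset.sum_add_distrib, Finset.sum_const, card_range, ← Finset.sum_filter,
      Finset.sum_const, nsmul_eq_mul, nsmul_eq_mul]
    ring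
  rw [h2] at h1
  rw [e]
  refine (norm_add_le _ _).trans ?_
  linarith

/-- functions which are almost determined by a block of `m` consecutive values -/
theorem sub_coreL (hMR : MRp) (G : Type) [Group G] [Finite G] (B : ℕ) (hB : 2 ≤ B) (m : ℕ)
    {ε : ℝ} (hε : 0 < ε) :
    ∃ h0 : ℕ, ∀ h ≥ h0, ∃ X0 : ℕ, ∀ X ≥ X0, ∀ q : ℕ → ℕ, Rad B q →
      ∀ (g : ℕ → ℕ → ℕ → G) (L s : ℕ → ℕ) (φ : ℕ → ℕ → ℂ), (∀ x n, ‖φ x n‖ ≤ 1) →
      (∀ x n n' : ℕ, n < h → n' < h →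
        (∀ i < m, hw q (g x) 0 (L x) (n + s x + i) = hw q (g x) 0 (L x) (n' + s x + i)) →
          ‖φ x n - φ x n'‖ ≤ ε) →
      ∑ x ∈ range X, ‖∑ n ∈ range h, mc (x + n) * φ x n‖ ≤ 3 * ε * h * X := by
  classical
  have : NeZero B := ⟨by omega⟩
  obtain ⟨k, hk⟩ : ∃ k : ℕ, 4 * (m : ℝ) / ε < 2 ^ k := pow_unbounded_of_one_lt _ one_lt_two
  obtain ⟨h1, hh1⟩ := local_all hMR (G × (Fin k → Multiplicative (ZMod B))) B hε
  obtain ⟨h2, hh2⟩ := exists_nat_gt (8 * (m : ℝ) / ε)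
  refine ⟨max h1 h2, fun h hh => ?_⟩
  have hhh1 : h1 ≤ h := (le_max_left _ _).trans hh
  have hhh2 : h2 ≤ h := (le_max_right _ _).trans hh
  obtain ⟨X0, hX0⟩ := hh1 h hhh1
  refine ⟨X0, fun X hX q hq g L s φ hφ hd => ?_⟩
  choose g' L' hrec using fun x => PS.record B k hq (g x) (L x)
  set F : ℕ → G × (Fin k → Multiplicative (ZMod B)) → ℂ := fun x z =>
    if hx : ∃ n, n < h ∧ hw q (g' x) 0 (L' x) (n + s x) = z then φ x hx.choose else 0 with hF
  have hF1 : ∀ x z, ‖F x z‖ ≤ 1 := by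
    intro x z
    rw [hF]
    dsimp only
    split_ifs with hx
    · exact hφ _ _
    · rw [norm_zero]
      exact zero_le_one
  have hgood : ∀ x n, n < h → ((n + s x) % Qr q 0 k + m ≤ Qr q 0 k) →
      ‖φ x n - F x (hw q (g' x) 0 (L' x) (n + s x))‖ ≤ ε := by
    intro x n hn hnm
    have hx : ∃ n', n' < h ∧ hw q (g' x) 0 (L' x) (n' + s x) =
        hw q (g' x) 0 (L' x) (n + s x) := ⟨n, hn, rfl⟩
    have e : F x (hw q (g' x) 0 (L' x) (n + s x)) = φ x hx.choose := by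
      rw [hF]
      exact dif_pos hx
    rw [e]
    obtain ⟨e1, e2⟩ := hx.choose_spec
    obtain ⟨e3, e4⟩ := hrec x (n + s x) (hx.choose + s x) e2.symm
    exact hd x n hx.choose hn e1 fun i hi => e4 i (by omega)
  have hQ1 : 0 < Qr q 0 k := Qr_pos hq 0 k
  have hmain := hX0 X hX q hq g' L' s F hF1
  have hone : ∀ x, ‖∑ n ∈ range h, mc (x + n) * φ x n‖ ≤
      ‖∑ n ∈ range h, mc (x + n) * F x (hw q (g' x) 0 (L' x) (n + s x))‖ + ε * h + ε * h := by
    intro x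
    have hcount := base_count hQ1 h (s x) m
    have h3 := sub_sum h x (fun n => (n + s x) % Qr q 0 k + m ≤ Qr q 0 k) (φ x)
      (fun n => F x (hw q (g' x) 0 (L' x) (n + s x))) hε (hφ x) (fun n => hF1 x _)
      (fun n hn hP => hgood x n hn hP) (Nat.cast_le.2 hcount)
    refine h3.trans ?_
    have hN0 : (0 : ℝ) ≤ h := Nat.cast_nonneg h
    have hm0 : (0 : ℝ) ≤ m := Nat.cast_nonneg m
    have hQ : (2 : ℝ) ^ k ≤ Qr q 0 k := by exact_mod_cast two_pow_le_Qr hq 0 k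
    have hQ0 : (0 : ℝ) < Qr q 0 k := by exact_mod_cast hQ1
    have h4 : 4 * (m : ℝ) ≤ ε * Qr q 0 k := by
      rw [div_lt_iff₀ hε] at hk
      nlinarith
    have h5 : 8 * (m : ℝ) ≤ ε * h := by
      rw [div_lt_iff₀ hε] at hh2
      have h6 : (h2 : ℝ) ≤ h := by exact_mod_cast hhh2
      nlinarith
    have h6 : (m : ℝ) * ((h / Qr q 0 k : ℕ) : ℝ) ≤ ε * h / 4 := by
      have h7 : ((h / Qr q 0 k : ℕ) : ℝ) ≤ (h : ℝ) / Qr q 0 k := Nat.cast_div_le
      refine (mul_le_mul_of_nonneg_left h7 hm0).trans ?_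
      rw [← mul_div_assoc, div_le_iff₀ hQ0]
      nlinarith
    push_cast at h6 ⊢
    nlinarith
  refine (Finset.sum_le_sum fun x _ => hone x).trans ?_
  rw [Finset.sum_add_distrib, Finset.sum_add_distrib, Finset.sum_const, card_range,
    nsmul_eq_mul]
  nlinarith

theorem XQ_main (hMR : MRp) (G : Type) [Group G] [Finite G] [TopologicalSpace G]
    [DiscreteTopology G] (B : ℕ) (hB : 2 ≤ B) (f : (ℕ → G) → ℂ) (hf : Continuous f) {ε : ℝ}
    (hε : 0 < ε) :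
    ∃ h0 : ℕ, ∀ h ≥ h0, ∃ X0 : ℕ, ∀ X ≥ X0, ∀ q : ℕ → ℕ, Rad B q → ∀ x : ℕ → ℕ → G,
      (∀ n, x n ∈ XQ G q) →
        ∑ n ∈ range X, ‖∑ m ∈ range h, mc (n + m) * f (fun i => x n (i + m))‖ ≤ ε * h * X := by
  classical
  have hcl : IsClosed (Set.univ : Set (ℕ → G)) := isClosed_univ
  obtain ⟨C, hC, hfC⟩ := PS.bdd_on hcl hf.continuousOn
  have hε' : 0 < ε / (3 * C) := by positivity
  obtain ⟨m, hm⟩ := PS.unif_coord hcl hf.continuousOn (mul_pos hC hε')
  obtain ⟨h0, hh0⟩ := sub_coreL hMR G B hB m hε'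
  refine ⟨h0, fun h hh => ?_⟩
  obtain ⟨X0, hX0⟩ := hh0 h hh
  refine ⟨X0, fun X hX q hq x hx => ?_⟩
  choose g L s hxs using fun n => hx n (h + m + 1)
  have h1 := hX0 X hX q hq g L s (fun n j => f (fun i => x n (i + j)) / C)
    (fun n j => by
      rw [norm_div, Complex.norm_real, Real.norm_eq_abs, abs_of_pos hC, div_le_one hC]
      exact hfC _ (Set.mem_univ _))
    (fun n j j' hj hj' hw => by
      rw [← sub_div, norm_div, Complex.norm_real, Real.norm_eq_abs, abs_of_pos hC,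
        div_le_iff₀ hC, mul_comm]
      refine hm _ (Set.mem_univ _) _ (Set.mem_univ _) fun i hi => ?_
      rw [hxs n (i + j) (by omega), hxs n (i + j') (by omega)]
      have := hw i hi
      rw [show i + j + s n = j + s n + i by omega, show i + j' + s n = j' + s n + i by omega]
      exact this)
  have e : ∀ n, ‖∑ j ∈ range h, mc (n + j) * f (fun i => x n (i + j))‖ =
      C * ‖∑ j ∈ range h, mc (n + j) * (f (fun i => x n (i + j)) / C)‖ := by
    intro n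
    have e1 : ∑ j ∈ range h, mc (n + j) * f (fun i => x n (i + j)) =
        (C : ℂ) * ∑ j ∈ range h, mc (n + j) * (f (fun i => x n (i + j)) / C) := by
      rw [Finset.mul_sum]
      refine Finset.sum_congr rfl fun j _ => ?_
      have hC' : (C : ℂ) ≠ 0 := by exact_mod_cast hC.ne'
      field_simp
    rw [e1, norm_mul, Complex.norm_real, Real.norm_eq_abs, abs_of_pos hC]
  rw [Finset.sum_congr rfl fun n _ => e n, ← Finset.mul_sum]
  calc C * ∑ n ∈ range X, ‖∑ j ∈ range h, mc (n + j) * (f (fun i => x n (i + j)) / C)‖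
      ≤ C * (3 * (ε / (3 * C)) * h * X) := mul_le_mul_of_nonneg_left h1 hC.le
    _ = ε * h * X := by field_simp

end Pool.Agent.Lib.MP_3e612f_nt.LU
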